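import Mathlib

/-! # Cauchy integrals of functions with a spectral gap -/

set_option autoImplicit false

open Complex Filter Topology Set MeasureTheory Bornology

namespace Pool.Agent.NH10.BM

/-- the Cauchy integral over a set -/
noncomputable def Ph (G : ℝ → ℝ) (S : Set ℝ) (z : ℂ) : ℂ := ∫ t in S, (G t : ℂ) / ((t : ℂ) - z)

variable {G : ℝ → ℝ}

lemma Ph_diff (hG : Integrable G) {S : Set ℝ} (hS : MeasurableSet S) {z₀ : ℂ} {ε : ℝ} (hε : 0 < ε)
    (h : ∀ t ∈ S, ε ≤ ‖(t : ℂ) - z₀‖) : DifferentiableAt ℂ (Ph G S) z₀ := by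
  have hGm : AEStronglyMeasurable (fun t => (G t : ℂ)) (volume.restrict S) :=
    hG.ofReal.aestronglyMeasurable.restrict
  have hlow : ∀ t ∈ S, ∀ z ∈ Metric.ball z₀ (ε / 2), ε / 2 ≤ ‖(t : ℂ) - z‖ := by
    intro t ht z hz
    have h1 := h t ht
    have h2 : ‖(t : ℂ) - z₀‖ ≤ ‖(t : ℂ) - z‖ + ‖z - z₀‖ := by
      have e : (t : ℂ) - z₀ = ((t : ℂ) - z) + (z - z₀) := by ring
      rw [e]
      exact norm_add_le _ _
    rw [Metric.mem_ball, dist_eq_norm] at hz
    linarith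
  have hm1 : ∀ z : ℂ, Measurable fun t : ℝ => ((t : ℂ) - z)⁻¹ := fun z => by fun_prop
  have key := hasDerivAt_integral_of_dominated_loc_of_deriv_le (μ := volume.restrict S) (𝕜 := ℂ)
    (F := fun z t => (G t : ℂ) / ((t : ℂ) - z)) (F' := fun z t => (G t : ℂ) / ((t : ℂ) - z) ^ 2)
    (x₀ := z₀) (s := Metric.ball z₀ (ε / 2)) (bound := fun t => |G t| * (4 / ε ^ 2))
    (Metric.ball_mem_nhds z₀ (by positivity)) ?_ ?_ ?_ ?_ ?_ ?_
  · exact key.2.differentiableAt
  · refine Eventually.of_forall fun z => ?_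
    exact hGm.mul (hm1 z).aestronglyMeasurable
  · refine Integrable.mono' (g := fun t => |G t| * (1 / ε)) (hG.abs.mul_const _).restrict
      (hGm.mul (hm1 z₀).aestronglyMeasurable) ?_
    refine (ae_restrict_iff' hS).2 (ae_of_all _ fun t ht => ?_)
    rw [norm_div, Complex.norm_real, Real.norm_eq_abs, div_eq_mul_one_div]
    have := h t ht
    gcongr
  · have : Measurable fun t : ℝ => (((t : ℂ) - z₀) ^ 2)⁻¹ := by fun_prop
    exact hGm.mul this.aestronglyMeasurable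
  · refine (ae_restrict_iff' hS).2 (ae_of_all _ fun t ht z hz => ?_)
    rw [norm_div, Complex.norm_real, Real.norm_eq_abs, norm_pow, div_eq_mul_one_div]
    have h1 := hlow t ht z hz
    have h2 : (ε / 2) ^ 2 ≤ ‖(t : ℂ) - z‖ ^ 2 := pow_le_pow_left₀ (by positivity) h1 2
    have h3 : 1 / ‖(t : ℂ) - z‖ ^ 2 ≤ 1 / (ε / 2) ^ 2 :=
      one_div_le_one_div_of_le (by positivity) h2
    have h4 : 1 / (ε / 2) ^ 2 = 4 / ε ^ 2 := by field_simp; norm_num
    rw [h4] at h3
    gcongr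
  · exact (hG.abs.mul_const _).restrict
  · refine (ae_restrict_iff' hS).2 (ae_of_all _ fun t ht z hz => ?_)
    have h1 := hlow t ht z hz
    have h2 : (t : ℂ) - z ≠ 0 := by
      intro hc
      rw [hc, norm_zero] at h1
      linarith
    have h3 : HasDerivAt (fun z : ℂ => (t : ℂ) - z) (-1) z := by
      simpa using (hasDerivAt_id z).const_sub (t : ℂ)
    have h4 := (h3.inv h2).const_mul (G t : ℂ)
    refine h4.congr_deriv ?_
    ring

lemma norm_low (t : ℝ) (z : ℂ) : |z.im| ≤ ‖(t : ℂ) - z‖ := by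
  have := Complex.abs_im_le_norm ((t : ℂ) - z)
  simpa using this

lemma Ph_bound (hG : Integrable G) {S : Set ℝ} {z : ℂ} (hz : z.im ≠ 0) :
    ‖Ph G S z‖ ≤ (∫ t in S, |G t|) / |z.im| := by
  have hz0 : 0 < |z.im| := abs_pos.2 hz
  unfold Ph
  rw [← integral_div]
  refine norm_integral_le_of_norm_le (hG.abs.restrict.div_const _) (ae_of_all _ fun t => ?_)
  rw [norm_div, Complex.norm_real, Real.norm_eq_abs]
  exact div_le_div_of_nonneg_left (abs_nonneg _) hz0 (norm_low t z)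

lemma Ph_int (hG : Integrable G) {z : ℂ} (hz : z.im ≠ 0) :
    Integrable fun t : ℝ => (G t : ℂ) / ((t : ℂ) - z) := by
  have hz0 : 0 < |z.im| := abs_pos.2 hz
  refine Integrable.mono' (hG.abs.div_const |z.im|) ?_ (ae_of_all _ fun t => ?_)
  · have : Measurable fun t : ℝ => ((t : ℂ) - z)⁻¹ := by fun_prop
    exact hG.ofReal.aestronglyMeasurable.mul this.aestronglyMeasurable
  · rw [norm_div, Complex.norm_real, Real.norm_eq_abs]
    exact div_le_div_of_nonneg_left (abs_nonneg _) hz0 (norm_low t z)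

lemma Ph_split (hG : Integrable G) {S : Set ℝ} (hS : MeasurableSet S) {z : ℂ} (hz : z.im ≠ 0) :
    Ph G univ z = Ph G S z + Ph G Sᶜ z := by
  unfold Ph
  rw [setIntegral_univ, integral_add_compl hS (Ph_int hG hz)]

/-- the spectral gap -/
def Gap (G : ℝ → ℝ) (σ : ℝ) : Prop := ∀ ξ : ℝ, |ξ| ≤ σ → ∫ x, (G x : ℂ) * cexp (I * (ξ * x)) = 0

lemma exp_int {τ : ℝ} {z : ℂ} {t : ℝ} (h : (t : ℂ) - z ≠ 0) :
    ∫ ξ in (0 : ℝ)..τ, cexp (I * ξ * (z - t)) = -I * ((1 - cexp (I * τ * (z - t))) / ((t : ℂ) - z)) := by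
  have h1 : I * (z - (t : ℂ)) ≠ 0 := by
    refine mul_ne_zero I_ne_zero ?_
    intro hc
    apply h
    rw [← neg_sub, hc, neg_zero]
  have h2 := integral_exp_mul_complex (a := 0) (b := τ) h1
  have e : ∀ ξ : ℝ, cexp (I * ξ * (z - t)) = cexp (I * (z - t) * ξ) := fun ξ => by
    congr 1; ring
  simp_rw [e]
  rw [h2]
  have e3 : cexp (I * (z - t) * τ) = cexp (I * τ * (z - t)) := by congr 1; ring
  simp only [ofReal_zero, mul_zero, Complex.exp_zero]
  rw [e3]
  have e2 : (z - (t : ℂ)) = -((t : ℂ) - z) := by ring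
  rw [e2] at h1 ⊢
  rw [div_eq_iff h1]
  have e4 : -I * ((1 - cexp (I * ↑τ * -((t : ℂ) - z))) / ((t : ℂ) - z)) * (I * -((t : ℂ) - z)) =
      (I * I) * (1 - cexp (I * ↑τ * -((t : ℂ) - z))) * (((t : ℂ) - z) / ((t : ℂ) - z)) := by ring
  rw [e4, div_self h, I_mul_I]
  ring

/-- the spectral gap gives exponential decay -/
lemma Ph_decay (hG : Integrable G) {σ : ℝ} (hσ : 0 ≤ σ) (hgap : Gap G σ) {z : ℂ} (hz : z.im ≠ 0) :
    ‖Ph G univ z‖ ≤ (∫ t, |G t|) * Real.exp (-(σ * |z.im|)) / |z.im| := by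
  have hz0 : 0 < |z.im| := abs_pos.2 hz
  -- the sign
  obtain ⟨τ, hτ1, hτ2⟩ : ∃ τ : ℝ, |τ| = σ ∧ τ * z.im = σ * |z.im| := by
    rcases abs_cases z.im with ⟨h, h'⟩ | ⟨h, h'⟩
    · exact ⟨σ, abs_of_nonneg hσ, by rw [h]⟩
    · exact ⟨-σ, by rw [abs_neg, abs_of_nonneg hσ], by rw [h]; ring⟩
  have hne : ∀ t : ℝ, (t : ℂ) - z ≠ 0 := by
    intro t hc
    have := norm_low t z
    rw [hc, norm_zero] at this
    linarith
  have h0 : ∫ t, (G t : ℂ) * ((1 - cexp (I * τ * (z - t))) / ((t : ℂ) - z)) = 0 := by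
    have e1 : ∀ t : ℝ, (G t : ℂ) * ((1 - cexp (I * τ * (z - t))) / ((t : ℂ) - z)) =
        I * ∫ ξ in (0 : ℝ)..τ, (G t : ℂ) * cexp (I * ξ * (z - t)) := by
      intro t
      rw [intervalIntegral.integral_const_mul, exp_int (hne t)]
      have : I * ((G t : ℂ) * (-I * ((1 - cexp (I * τ * (z - t))) / ((t : ℂ) - z)))) =
          -(I * I) * ((G t : ℂ) * ((1 - cexp (I * τ * (z - t))) / ((t : ℂ) - z))) := by ring
      rw [this, I_mul_I]
      ring
    simp_rw [e1]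
    rw [integral_const_mul]
    have e2 : ∫ t, ∫ ξ in (0 : ℝ)..τ, (G t : ℂ) * cexp (I * ξ * (z - t)) =
        ∫ ξ in (0 : ℝ)..τ, ∫ t, (G t : ℂ) * cexp (I * ξ * (z - t)) := by
      have hb : ∀ ξ ∈ Set.uIcc 0 τ, ∀ t : ℝ, ‖(G t : ℂ) * cexp (I * ξ * (z - t))‖ ≤
          |G t| * Real.exp (σ * |z.im|) := by
        intro ξ hξ t
        rw [norm_mul, Complex.norm_real, Real.norm_eq_abs, Complex.norm_exp]
        have h1 : (I * ξ * (z - t)).re = -(ξ * z.im) := by simp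
        rw [h1]
        have h2 : |ξ| ≤ σ := by
          rw [← hτ1]
          rcases Set.mem_uIcc.1 hξ with ⟨a1, a2⟩ | ⟨a1, a2⟩
          · rw [abs_of_nonneg a1, abs_of_nonneg (a1.trans a2)]; exact a2
          · rw [abs_of_nonpos a2, abs_of_nonpos (a1.trans a2)]; linarith
        have h3 : -(ξ * z.im) ≤ σ * |z.im| := by
          calc -(ξ * z.im) ≤ |ξ * z.im| := neg_le_abs _
            _ = |ξ| * |z.im| := abs_mul _ _
            _ ≤ _ := by gcongr
        gcongr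
      have hprod : ∀ a b : ℝ, (∀ ξ ∈ Set.Ioc a b, ξ ∈ Set.uIcc 0 τ) →
          Integrable (Function.uncurry fun (t : ℝ) (ξ : ℝ) => (G t : ℂ) * cexp (I * ξ * (z - t)))
            (volume.prod (volume.restrict (Set.Ioc a b))) := by
        intro a b hab
        have i1 : Integrable (fun p : ℝ × ℝ => (|G p.1| * Real.exp (σ * |z.im|)) * (1 : ℝ))
            (volume.prod (volume.restrict (Set.Ioc a b))) :=
          (hG.abs.mul_const _).mul_prod (integrable_const (1 : ℝ))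
        refine i1.mono' ?_ ?_
        · have g1 : AEStronglyMeasurable (fun p : ℝ × ℝ => (G p.1 : ℂ))
              (volume.prod (volume.restrict (Set.Ioc a b))) :=
            hG.ofReal.aestronglyMeasurable.comp_fst
          refine g1.mul ?_
          apply Continuous.aestronglyMeasurable
          fun_prop
        · have hmm : ∀ᵐ p : ℝ × ℝ ∂(volume.prod (volume.restrict (Set.Ioc a b))),
              p.2 ∈ Set.Ioc a b := by
            have h1 : ∀ᵐ y : ℝ ∂(volume.restrict (Set.Ioc a b)), y ∈ Set.Ioc a b :=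
              ae_restrict_mem measurableSet_Ioc
            exact Measure.quasiMeasurePreserving_snd.ae h1
          filter_upwards [hmm] with p hp
          rw [mul_one]
          exact hb p.2 (hab _ hp) p.1
      rcases le_total 0 τ with h | h
      · simp only [intervalIntegral.integral_of_le h]
        refine integral_integral_swap (hprod 0 τ fun ξ hξ => ?_)
        rw [Set.uIcc_of_le h]
        exact ⟨hξ.1.le, hξ.2⟩
      · simp only [intervalIntegral.integral_of_ge h]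
        rw [integral_neg]
        congr 1
        refine integral_integral_swap (hprod τ 0 fun ξ hξ => ?_)
        rw [Set.uIcc_of_ge h]
        exact ⟨hξ.1.le, hξ.2⟩
    rw [e2]
    have e3 : ∀ ξ ∈ Set.uIcc 0 τ, ∫ t, (G t : ℂ) * cexp (I * ξ * (z - t)) = 0 := by
      intro ξ hξ
      have h2 : |ξ| ≤ σ := by
        rw [← hτ1]
        rcases Set.mem_uIcc.1 hξ with ⟨a1, a2⟩ | ⟨a1, a2⟩
        · rw [abs_of_nonneg a1, abs_of_nonneg (a1.trans a2)]; exact a2
        · rw [abs_of_nonpos a2, abs_of_nonpos (a1.trans a2)]; linarith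
      have h3 := hgap (-ξ) (by rwa [abs_neg])
      have e4 : ∀ t : ℝ, (G t : ℂ) * cexp (I * ξ * (z - t)) =
          cexp (I * ξ * z) * ((G t : ℂ) * cexp (I * (((-ξ : ℝ) : ℂ) * t))) := by
        intro t
        have : cexp (I * ξ * (z - t)) = cexp (I * ξ * z) * cexp (I * (((-ξ : ℝ) : ℂ) * t)) := by
          rw [← Complex.exp_add]
          congr 1
          push_cast
          ring
        rw [this]
        ring
      simp_rw [e4]
      rw [integral_const_mul, h3, mul_zero]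
    rw [intervalIntegral.integral_congr e3]
    simp
  have h1 : Ph G univ z = ∫ t, (G t : ℂ) * (cexp (I * τ * (z - t)) / ((t : ℂ) - z)) := by
    unfold Ph
    rw [setIntegral_univ]
    have i1 := Ph_int hG hz
    have i2 : Integrable fun t : ℝ => (G t : ℂ) * (cexp (I * τ * (z - t)) / ((t : ℂ) - z)) := by
      have : (fun t : ℝ => (G t : ℂ) * (cexp (I * τ * (z - t)) / ((t : ℂ) - z))) =
          fun t : ℝ => cexp (I * τ * (z - t)) * ((G t : ℂ) / ((t : ℂ) - z)) := by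
        funext t; ring
      rw [this]
      refine i1.bdd_mul (c := Real.exp (-(σ * |z.im|))) (by fun_prop) (ae_of_all _ fun t => ?_)
      rw [Complex.norm_exp]
      have h1 : (I * τ * (z - t)).re = -(τ * z.im) := by simp
      rw [h1, hτ2]
    have h2 : ∫ t, ((G t : ℂ) / ((t : ℂ) - z) -
        (G t : ℂ) * (cexp (I * τ * (z - t)) / ((t : ℂ) - z))) = 0 := by
      rw [← h0]
      refine integral_congr_ae (ae_of_all _ fun t => ?_)
      simp only
      ring
    rw [integral_sub i1 i2] at h2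
    exact sub_eq_zero.1 h2
  rw [h1, div_eq_mul_inv, mul_assoc, ← integral_mul_const]
  refine norm_integral_le_of_norm_le (hG.abs.mul_const _) (ae_of_all _ fun t => ?_)
  rw [norm_mul, Complex.norm_real, Real.norm_eq_abs, norm_div, Complex.norm_exp]
  have h2 : (I * τ * (z - t)).re = -(τ * z.im) := by simp
  rw [h2, hτ2, div_eq_mul_inv]
  have h3 := norm_low t z
  gcongr

lemma sphere_id {w : ℂ} {ρ : ℝ} (hw : ‖w‖ = ρ) : ‖w ^ 2 - (ρ : ℂ) ^ 2‖ = 2 * ρ * |w.im| := by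
  have hρ : 0 ≤ ρ := by rw [← hw]; exact norm_nonneg _
  have h1 : w.re ^ 2 + w.im ^ 2 = ρ ^ 2 := by
    rw [← hw, Complex.sq_norm, Complex.normSq_apply]; ring
  have h2 : ‖w ^ 2 - (ρ : ℂ) ^ 2‖ ^ 2 = (2 * ρ * |w.im|) ^ 2 := by
    rw [Complex.sq_norm, Complex.normSq_apply]
    have e1 : (w ^ 2 - (ρ : ℂ) ^ 2).re = w.re ^ 2 - w.im ^ 2 - ρ ^ 2 := by
      rw [← Complex.ofReal_pow, Complex.sub_re, Complex.ofReal_re, pow_two w, Complex.mul_re]
      ring
    have e2 : (w ^ 2 - (ρ : ℂ) ^ 2).im = 2 * w.re * w.im := by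
      rw [← Complex.ofReal_pow, Complex.sub_im, Complex.ofReal_im, pow_two w, Complex.mul_im]
      ring
    rw [e1, e2, mul_pow, mul_pow, sq_abs, ← h1]
    ring
  exact (sq_eq_sq₀ (norm_nonneg _) (by positivity)).1 h2

lemma exp_norm {w : ℂ} {ρ β : ℝ} (hρ : 0 < ρ) :
    ‖cexp (β * (1 - w ^ 2 / (ρ : ℂ) ^ 2))‖ =
      Real.exp (β * (1 - (w.re ^ 2 - w.im ^ 2) / ρ ^ 2)) := by
  rw [Complex.norm_exp]
  congr 1
  have e : (β : ℂ) * (1 - w ^ 2 / (ρ : ℂ) ^ 2) = (β : ℂ) * (1 - w ^ 2 / ((ρ ^ 2 : ℝ) : ℂ)) := by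
    push_cast; ring
  rw [e, Complex.re_ofReal_mul, Complex.sub_re, Complex.one_re, Complex.div_ofReal_re, pow_two w,
    Complex.mul_re]
  congr 3
  ring

/-- the Cauchy integral is small near an interval where the function is small -/
theorem disc (hG : Integrable G) {σ : ℝ} (hσ : 0 < σ) (hgap : Gap G σ) {m R ρ : ℝ} (hρ : 0 < ρ)
    (hρR : ρ < R) {z : ℂ} (hz : ‖z - m‖ ≤ ρ / 2) :
    ‖Ph G (Set.Ioo (m - R) (m + R))ᶜ z‖ ≤ 8 / (3 * ρ) * ((∫ t, |G t|) +
      (∫ t in Set.Ioo (m - R) (m + R), |G t|) * Real.exp (σ * ρ)) * Real.exp (-(3 * σ * ρ / 8)) := by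
  obtain ⟨J, hJ⟩ : ∃ J : Set ℝ, J = Set.Ioo (m - R) (m + R) := ⟨_, rfl⟩
  have hJm : MeasurableSet J := by rw [hJ]; exact measurableSet_Ioo
  rw [← hJ]
  obtain ⟨A, hA⟩ : ∃ A : ℝ, A = ∫ t, |G t| := ⟨_, rfl⟩
  obtain ⟨e, he⟩ : ∃ e : ℝ, e = ∫ t in J, |G t| := ⟨_, rfl⟩
  rw [← hA, ← he]
  have hA0 : 0 ≤ A := by rw [hA]; exact integral_nonneg fun _ => abs_nonneg _
  have he0 : 0 ≤ e := by rw [he]; exact setIntegral_nonneg hJm fun _ _ => abs_nonneg _
  obtain ⟨β, hβ⟩ : ∃ β : ℝ, β = σ * ρ / 2 := ⟨_, rfl⟩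
  obtain ⟨f, hf⟩ : ∃ f : ℂ → ℂ, ∀ z, f z = Ph G Jᶜ z * ((z - m) ^ 2 - (ρ : ℂ) ^ 2) *
    cexp (β * (1 - (z - m) ^ 2 / (ρ : ℂ) ^ 2)) := ⟨_, fun _ => rfl⟩
  have hdiff : ∀ z : ℂ, ‖z - m‖ ≤ ρ → DifferentiableAt ℂ f z := by
    intro z hz
    have h1 : DifferentiableAt ℂ (Ph G Jᶜ) z := by
      refine Ph_diff hG hJm.compl (ε := R - ρ) (by linarith) fun t ht => ?_
      have h2 : R ≤ |t - m| := by
        by_contra hc
        push Not at hc
        rw [abs_lt] at hc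
        apply ht
        rw [hJ]
        exact ⟨by linarith [hc.1], by linarith [hc.2]⟩
      have h3 : ‖(t : ℂ) - m‖ = |t - m| := by
        rw [← Complex.ofReal_sub, Complex.norm_real, Real.norm_eq_abs]
      have h4 : ‖(t : ℂ) - m‖ ≤ ‖(t : ℂ) - z‖ + ‖z - m‖ := by
        have e : (t : ℂ) - m = ((t : ℂ) - z) + (z - m) := by ring
        rw [e]
        exact norm_add_le _ _
      linarith
    have h2 : f = fun z => Ph G Jᶜ z * ((z - m) ^ 2 - (ρ : ℂ) ^ 2) *
      cexp (β * (1 - (z - m) ^ 2 / (ρ : ℂ) ^ 2)) := funext hf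
    rw [h2]
    exact (h1.mul (by fun_prop)).mul (by fun_prop)
  have hU : IsBounded (Metric.ball (m : ℂ) ρ) := Metric.isBounded_ball
  have hdc : DiffContOnCl ℂ f (Metric.ball (m : ℂ) ρ) := by
    apply DifferentiableOn.diffContOnCl
    rw [closure_ball _ hρ.ne']
    intro w hw
    exact (hdiff w (by simpa [dist_eq_norm] using hw)).differentiableWithinAt
  have hfr : ∀ w ∈ frontier (Metric.ball (m : ℂ) ρ), ‖f w‖ ≤
      2 * ρ * (A + e * Real.exp (σ * ρ)) := by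
    intro w hw
    rw [frontier_ball _ hρ.ne', mem_sphere_iff_norm] at hw
    rw [hf, norm_mul, norm_mul, sphere_id hw, exp_norm hρ]
    have him : (w - m).im = w.im := by simp
    have hsq : (w - m).re ^ 2 + (w - m).im ^ 2 = ρ ^ 2 := by
      rw [← hw, Complex.sq_norm, Complex.normSq_apply]; ring
    by_cases hy : w.im = 0
    · rw [him, hy, abs_zero, mul_zero, mul_zero, zero_mul]
      positivity
    · have hy0 : 0 < |w.im| := abs_pos.2 hy
      have hyρ : |w.im| ≤ ρ := by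
        rw [← him, ← hw]
        exact Complex.abs_im_le_norm _
      have b1 := Ph_decay hG hσ.le hgap hy
      have b2 := Ph_bound hG (S := J) hy
      have b3 : ‖Ph G Jᶜ w‖ ≤ (A * Real.exp (-(σ * |w.im|)) + e) / |w.im| := by
        have h1 := Ph_split hG hJm hy
        have h2 : Ph G Jᶜ w = Ph G univ w - Ph G J w := by rw [h1]; ring
        rw [h2]
        refine (norm_sub_le _ _).trans ?_
        rw [add_div, hA, he]
        exact add_le_add b1 b2
      have b4 : β * (1 - ((w - m).re ^ 2 - (w - m).im ^ 2) / ρ ^ 2) ≤ σ * |w.im| := by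
        have h1 : (w - m).re ^ 2 = ρ ^ 2 - (w - m).im ^ 2 := by linarith
        rw [h1, him, hβ]
        have h2 : σ * ρ / 2 * (1 - (ρ ^ 2 - w.im ^ 2 - w.im ^ 2) / ρ ^ 2) = σ * (w.im ^ 2 / ρ) := by
          field_simp
          ring
        rw [h2]
        gcongr
        rw [div_le_iff₀ hρ, ← sq_abs]
        nlinarith
      rw [him]
      calc ‖Ph G Jᶜ w‖ * (2 * ρ * |w.im|) *
            Real.exp (β * (1 - ((w - m).re ^ 2 - w.im ^ 2) / ρ ^ 2))
          ≤ ((A * Real.exp (-(σ * |w.im|)) + e) / |w.im|) * (2 * ρ * |w.im|) *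
            Real.exp (σ * |w.im|) := by
            rw [him] at b4
            gcongr
        _ = 2 * ρ * (A * (Real.exp (-(σ * |w.im|)) * Real.exp (σ * |w.im|)) +
            e * Real.exp (σ * |w.im|)) := by
            field_simp
        _ ≤ 2 * ρ * (A + e * Real.exp (σ * ρ)) := by
            rw [← Real.exp_add, neg_add_cancel, Real.exp_zero, mul_one]
            gcongr
  have hzc : z ∈ closure (Metric.ball (m : ℂ) ρ) := by
    rw [closure_ball _ hρ.ne', Metric.mem_closedBall, dist_eq_norm]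
    linarith
  have hmax := Complex.norm_le_of_forall_mem_frontier_norm_le hU hdc hfr hzc
  rw [hf, norm_mul, norm_mul, exp_norm hρ] at hmax
  have hw2 : ‖(z - m) ^ 2‖ ≤ ρ ^ 2 / 4 := by
    rw [norm_pow]
    calc ‖z - m‖ ^ 2 ≤ (ρ / 2) ^ 2 := pow_le_pow_left₀ (norm_nonneg _) hz 2
      _ = _ := by ring
  have c1 : 3 * ρ ^ 2 / 4 ≤ ‖(z - m) ^ 2 - (ρ : ℂ) ^ 2‖ := by
    have h1 := norm_sub_norm_le ((ρ : ℂ) ^ 2) ((z - m) ^ 2)
    have h2 : ‖(ρ : ℂ) ^ 2‖ = ρ ^ 2 := by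
      rw [norm_pow, Complex.norm_real, Real.norm_eq_abs, abs_of_pos hρ]
    rw [h2, norm_sub_rev] at h1
    linarith
  have c2 : Real.exp (3 * σ * ρ / 8) ≤
      Real.exp (β * (1 - ((z - m).re ^ 2 - (z - m).im ^ 2) / ρ ^ 2)) := by
    apply Real.exp_le_exp.2
    have h1 : (z - m).re ^ 2 - (z - m).im ^ 2 ≤ ρ ^ 2 / 4 := by
      have : (z - m).re ^ 2 + (z - m).im ^ 2 ≤ ρ ^ 2 / 4 := by
        have h3 : ‖z - m‖ ^ 2 = (z - m).re ^ 2 + (z - m).im ^ 2 := by
          rw [Complex.sq_norm, Complex.normSq_apply]; ring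
        rw [← h3, ← norm_pow]
        exact hw2
      nlinarith [sq_nonneg (z - m).im]
    have h2 : ((z - m).re ^ 2 - (z - m).im ^ 2) / ρ ^ 2 ≤ 1 / 4 := by
      rw [div_le_iff₀ (by positivity)]
      linarith
    have h3 : β * (3 / 4) ≤ β * (1 - ((z - m).re ^ 2 - (z - m).im ^ 2) / ρ ^ 2) := by
      apply mul_le_mul_of_nonneg_left (by linarith)
      rw [hβ]; positivity
    refine le_trans (le_of_eq ?_) h3
    rw [hβ]; ring
  have hP := norm_nonneg (Ph G Jᶜ z)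
  have c3 : ‖Ph G Jᶜ z‖ * (3 * ρ ^ 2 / 4) * Real.exp (3 * σ * ρ / 8) ≤
      2 * ρ * (A + e * Real.exp (σ * ρ)) := by
    refine le_trans ?_ hmax
    gcongr
  have c4 : ‖Ph G Jᶜ z‖ * ((3 * ρ ^ 2 / 4) * Real.exp (3 * σ * ρ / 8)) ≤
      (8 / (3 * ρ) * (A + e * Real.exp (σ * ρ)) * Real.exp (-(3 * σ * ρ / 8))) *
        ((3 * ρ ^ 2 / 4) * Real.exp (3 * σ * ρ / 8)) := by
    have e1 : (8 / (3 * ρ) * (A + e * Real.exp (σ * ρ)) * Real.exp (-(3 * σ * ρ / 8))) *
        ((3 * ρ ^ 2 / 4) * Real.exp (3 * σ * ρ / 8)) =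
        2 * ρ * (A + e * Real.exp (σ * ρ)) *
          (Real.exp (-(3 * σ * ρ / 8)) * Real.exp (3 * σ * ρ / 8)) := by
      field_simp
      ring
    rw [e1, ← Real.exp_add, neg_add_cancel, Real.exp_zero, mul_one, ← mul_assoc]
    exact c3
  exact le_of_mul_le_mul_right c4 (by positivity)

end Pool.Agent.NH10.BM
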