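import Mathlib

/-! # Bounded analytic functions in the half plane which are small on real intervals -/

set_option autoImplicit false

open Complex Filter Topology Set MeasureTheory Bornology

namespace Pool.Agent.NH10.BM

/-- the Cauchy integral of a segment -/
noncomputable def Cs (a b : ℝ) (z : ℂ) : ℂ := Complex.log (b - z) - Complex.log (a - z)

lemma mem_slit {t : ℝ} {z : ℂ} (hz : 0 < z.im) : (t : ℂ) - z ∈ slitPlane := by
  right
  simp only [sub_im, ofReal_im, zero_sub, ne_eq, neg_eq_zero]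
  exact hz.ne'

lemma Cs_diff (a b : ℝ) {z : ℂ} (hz : 0 < z.im) : DifferentiableAt ℂ (Cs a b) z := by
  unfold Cs
  exact (((differentiableAt_const _).sub differentiableAt_id).clog (mem_slit hz)).sub
    (((differentiableAt_const _).sub differentiableAt_id).clog (mem_slit hz))

lemma den_pos {z : ℂ} (hz : 0 < z.im) (t : ℝ) : 0 < (t - z.re) ^ 2 + z.im ^ 2 := by positivity

lemma Cs_cont {z : ℂ} (hz : 0 < z.im) :
    Continuous fun t : ℝ => z.im / ((t - z.re) ^ 2 + z.im ^ 2) :=
  continuous_const.div (by fun_prop) fun t => (den_pos hz t).ne'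

lemma Cs_im (a b : ℝ) {z : ℂ} (hz : 0 < z.im) :
    (Cs a b z).im = ∫ t in a..b, z.im / ((t - z.re) ^ 2 + z.im ^ 2) := by
  have h : ∀ t : ℝ, HasDerivAt (fun t : ℝ => (Complex.log ((t : ℂ) - z)).im)
      (z.im / ((t - z.re) ^ 2 + z.im ^ 2)) t := by
    intro t
    have h1 : HasDerivAt (fun t : ℝ => (t : ℂ) - z) 1 t :=
      (Complex.ofRealCLM.hasDerivAt (x := t)).sub_const _
    have h2 := h1.clog_real (mem_slit hz)
    have h3 := Complex.imCLM.hasFDerivAt.comp_hasDerivAt t h2
    refine h3.congr_deriv ?_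
    show (1 / ((t : ℂ) - z)).im = _
    rw [one_div, Complex.inv_im, Complex.normSq_apply]
    simp only [sub_im, ofReal_im, zero_sub, neg_neg, sub_re, ofReal_re]
    congr 1
    ring
  rw [intervalIntegral.integral_eq_sub_of_hasDerivAt (fun t _ => h t)
    ((Cs_cont hz).intervalIntegrable _ _)]
  unfold Cs
  rw [Complex.sub_im]

lemma Cs_nonneg {a b : ℝ} (hab : a ≤ b) {z : ℂ} (hz : 0 < z.im) : 0 ≤ (Cs a b z).im := by
  rw [Cs_im a b hz]
  exact intervalIntegral.integral_nonneg hab fun t _ => by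
    have := den_pos hz t
    positivity

lemma Cs_le_pi (a b : ℝ) {z : ℂ} (hz : 0 < z.im) : (Cs a b z).im ≤ Real.pi := by
  unfold Cs
  rw [Complex.sub_im, Complex.log_im, Complex.log_im]
  have h1 : ((b : ℂ) - z).arg < 0 := by
    rw [Complex.arg_neg_iff]
    simp only [sub_im, ofReal_im, zero_sub]
    linarith
  have h2 := Complex.neg_pi_lt_arg ((a : ℂ) - z)
  linarith

lemma Cs_far {a b q : ℝ} (hab : a ≤ b) (hq : 0 < q) {z : ℂ} (hz : 0 < z.im)
    (h : ∀ t ∈ Icc a b, q ≤ |t - z.re|) : (Cs a b z).im ≤ z.im * (b - a) / q ^ 2 := by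
  rw [Cs_im a b hz]
  have h1 : ∫ t in a..b, z.im / ((t - z.re) ^ 2 + z.im ^ 2) ≤ ∫ t in a..b, z.im / q ^ 2 := by
    refine intervalIntegral.integral_mono_on hab ((Cs_cont hz).intervalIntegrable _ _) (by simp)
      fun t ht => ?_
    apply div_le_div_of_nonneg_left hz.le (by positivity)
    have h2 := pow_le_pow_left₀ hq.le (h t ht) 2
    rw [sq_abs] at h2
    nlinarith [sq_nonneg z.im]
  rw [intervalIntegral.integral_const, smul_eq_mul] at h1
  refine h1.trans (le_of_eq ?_)
  ring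

lemma Cs_low {a b R : ℝ} (hab : a ≤ b) {z : ℂ} (hz : 0 < z.im)
    (h : ∀ t ∈ Icc a b, |t - z.re| ≤ R) : z.im * (b - a) / (R ^ 2 + z.im ^ 2) ≤ (Cs a b z).im := by
  rw [Cs_im a b hz]
  have h1 : ∫ t in a..b, z.im / (R ^ 2 + z.im ^ 2) ≤
      ∫ t in a..b, z.im / ((t - z.re) ^ 2 + z.im ^ 2) := by
    refine intervalIntegral.integral_mono_on hab (by simp) ((Cs_cont hz).intervalIntegrable _ _)
      fun t ht => ?_
    apply div_le_div_of_nonneg_left hz.le (den_pos hz t)
    have h2 := pow_le_pow_left₀ (abs_nonneg _) (h t ht) 2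
    rw [sq_abs] at h2
    linarith
  rw [intervalIntegral.integral_const, smul_eq_mul] at h1
  refine le_trans (le_of_eq ?_) h1
  ring

section

variable {ι : Type*} {g : ℂ → ℂ} {C₁ : ℝ} {K : Finset ι} {p s lam : ι → ℝ}

/-- the exponent -/
noncomputable def Ws (K : Finset ι) (p s lam : ι → ℝ) (z : ℂ) : ℂ :=
  ∑ k ∈ K, ((lam k / Real.pi : ℝ) : ℂ) * Cs (p k - s k / 2) (p k + s k / 2) z

lemma Ws_diff {z : ℂ} (hz : 0 < z.im) : DifferentiableAt ℂ (Ws K p s lam) z := by
  unfold Ws
  exact DifferentiableAt.fun_sum fun k _ => (differentiableAt_const _).mul (Cs_diff _ _ hz)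

lemma Ws_im (z : ℂ) : (Ws K p s lam z).im =
    ∑ k ∈ K, lam k / Real.pi * (Cs (p k - s k / 2) (p k + s k / 2) z).im := by
  unfold Ws
  rw [Complex.im_sum]
  exact Finset.sum_congr rfl fun k _ => Complex.im_ofReal_mul _ _

lemma norm_expW (w : ℂ) : ‖cexp (-(I * w))‖ = Real.exp w.im := by
  rw [Complex.norm_exp]
  congr 1
  simp

/-- the sum of the far contributions -/
lemma far_sum (hs : ∀ k ∈ K, 0 < s k) (hl : ∀ k ∈ K, 0 ≤ lam k) {x δ : ℝ} (hδ : 0 < δ)
    (k : ι) (hk : k ∈ K) (hx : ¬ |x - p k| ≤ s k) {z : ℂ} (hz : z = x + δ * I) :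
    lam k / Real.pi * (Cs (p k - s k / 2) (p k + s k / 2) z).im ≤
      δ * (lam k * 4 / (Real.pi * s k)) := by
  have hpi := Real.pi_pos
  have hsk := hs k hk
  have hlk := hl k hk
  push Not at hx
  have hzi : z.im = δ := by rw [hz]; simp
  have hzr : z.re = x := by rw [hz]; simp
  have h1 : (Cs (p k - s k / 2) (p k + s k / 2) z).im ≤
      z.im * (p k + s k / 2 - (p k - s k / 2)) / (s k / 2) ^ 2 := by
    refine Cs_far (by linarith) (by positivity) (by rw [hzi]; exact hδ) fun t ht => ?_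
    rw [hzr]
    have h2 : |t - p k| ≤ s k / 2 := abs_le.2 ⟨by linarith [ht.1], by linarith [ht.2]⟩
    have h3 : |x - p k| ≤ |t - x| + |t - p k| := by
      have := abs_sub_abs_le_abs_sub (x - p k) (t - p k)
      have e : x - p k - (t - p k) = -(t - x) := by ring
      rw [e, abs_neg] at this
      linarith
    linarith
  rw [hzi] at h1
  calc lam k / Real.pi * (Cs (p k - s k / 2) (p k + s k / 2) z).im
      ≤ lam k / Real.pi * (δ * (p k + s k / 2 - (p k - s k / 2)) / (s k / 2) ^ 2) := by gcongr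
    _ = δ * (lam k * 4 / (Real.pi * s k)) := by
        field_simp
        ring

/-- the exponent on the shifted real line -/
lemma Ws_line (hs : ∀ k ∈ K, 0 < s k) (hl : ∀ k ∈ K, 0 ≤ lam k)
    (hd : ∀ j ∈ K, ∀ k ∈ K, ∀ x : ℝ, |x - p j| ≤ s j → |x - p k| ≤ s k → j = k)
    (hC : 0 ≤ C₁) (hb : ∀ z : ℂ, 0 ≤ z.im → ‖g z‖ ≤ C₁)
    (hsm : ∀ k ∈ K, ∀ x : ℝ, |x - p k| ≤ s k → ‖g x‖ ≤ C₁ * Real.exp (-lam k))
    {δ : ℝ} (hδ : 0 < δ) (x : ℝ) :
    ‖g x‖ * Real.exp (Ws K p s lam (x + δ * I)).im ≤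
      C₁ * Real.exp (δ * ∑ k ∈ K, lam k * 4 / (Real.pi * s k)) := by
  classical
  have hpi := Real.pi_pos
  have hz : 0 < ((x : ℂ) + δ * I).im := by simp [hδ]
  rw [Ws_im]
  by_cases hx : ∃ j ∈ K, |x - p j| ≤ s j
  · obtain ⟨j, hj, hxj⟩ := hx
    rw [← Finset.add_sum_erase K _ hj]
    have h1 : lam j / Real.pi * (Cs (p j - s j / 2) (p j + s j / 2) (x + δ * I)).im ≤ lam j := by
      have h2 := Cs_le_pi (p j - s j / 2) (p j + s j / 2) hz
      have h3 := hl j hj
      calc _ ≤ lam j / Real.pi * Real.pi := by gcongr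
        _ = lam j := by field_simp
    have h2 : ∑ k ∈ K.erase j, lam k / Real.pi *
        (Cs (p k - s k / 2) (p k + s k / 2) (x + δ * I)).im ≤
        δ * ∑ k ∈ K, lam k * 4 / (Real.pi * s k) := by
      rw [Finset.mul_sum]
      refine (Finset.sum_le_sum fun k hk => ?_).trans
        (Finset.sum_le_sum_of_subset_of_nonneg (Finset.erase_subset j K) fun k hk _ => ?_)
      · rw [Finset.mem_erase] at hk
        refine far_sum hs hl hδ k hk.2 (fun hc => hk.1 ?_) rfl
        exact hd k hk.2 j hj x hc hxj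
      · have := hl k hk
        have := hs k hk
        positivity
    calc ‖g x‖ * Real.exp (lam j / Real.pi * (Cs (p j - s j / 2) (p j + s j / 2) (x + δ * I)).im +
          ∑ k ∈ K.erase j, lam k / Real.pi *
            (Cs (p k - s k / 2) (p k + s k / 2) (x + δ * I)).im)
        ≤ (C₁ * Real.exp (-lam j)) *
          Real.exp (lam j + δ * ∑ k ∈ K, lam k * 4 / (Real.pi * s k)) := by
          gcongr
          exact hsm j hj x hxj
      _ = _ := by
          rw [mul_assoc, ← Real.exp_add]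
          congr 2
          ring
  · push Not at hx
    have h2 : ∑ k ∈ K, lam k / Real.pi *
        (Cs (p k - s k / 2) (p k + s k / 2) (x + δ * I)).im ≤
        δ * ∑ k ∈ K, lam k * 4 / (Real.pi * s k) := by
      rw [Finset.mul_sum]
      exact Finset.sum_le_sum fun k hk => far_sum hs hl hδ k hk (not_le.2 (hx k hk)) rfl
    gcongr
    exact hb x (by simp)

/-- **Two constants.** -/
theorem half (hg : DiffContOnCl ℂ g {z | 0 < z.im}) (hC : 0 ≤ C₁)
    (hb : ∀ z : ℂ, 0 ≤ z.im → ‖g z‖ ≤ C₁)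
    (hs : ∀ k ∈ K, 0 < s k) (hl : ∀ k ∈ K, 0 ≤ lam k)
    (hd : ∀ j ∈ K, ∀ k ∈ K, ∀ x : ℝ, |x - p j| ≤ s j → |x - p k| ≤ s k → j = k)
    (hsm : ∀ k ∈ K, ∀ x : ℝ, |x - p k| ≤ s k → ‖g x‖ ≤ C₁ * Real.exp (-lam k))
    {z : ℂ} (hz : 0 < z.im) :
    ‖g z‖ * Real.exp (∑ k ∈ K, lam k / Real.pi * (Cs (p k - s k / 2) (p k + s k / 2) z).im) ≤
      C₁ := by
  have hpi := Real.pi_pos
  obtain ⟨E, hE⟩ : ∃ E : ℝ, E = ∑ k ∈ K, lam k * 4 / (Real.pi * s k) := ⟨_, rfl⟩
  have main : ∀ δ : ℝ, 0 < δ → ‖g z‖ * Real.exp (Ws K p s lam (z + δ * I)).im ≤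
      C₁ * Real.exp (δ * E) := by
    intro δ hδ
    obtain ⟨f, hf⟩ : ∃ f : ℂ → ℂ, ∀ w, f w =
        cexp (-(I * Ws K p s lam (I * w + δ * I))) • g (I * w) := ⟨_, fun _ => rfl⟩
    have hnorm : ∀ w : ℂ, ‖f w‖ = ‖g (I * w)‖ * Real.exp (Ws K p s lam (I * w + δ * I)).im := by
      intro w
      rw [hf, norm_smul, norm_expW, mul_comm]
    have hd1 : DiffContOnCl ℂ (fun w => g (I * w)) {w : ℂ | 0 < w.re} := by
      have h1 : DiffContOnCl ℂ (fun w : ℂ => I * w) {w : ℂ | 0 < w.re} :=
        (by fun_prop : Differentiable ℂ fun w : ℂ => I * w).diffContOnCl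
      exact hg.comp h1 fun w hw => by
        simp only [mem_ofPred_eq] at hw ⊢
        simpa using hw
    have hd2 : DiffContOnCl ℂ (fun w => cexp (-(I * Ws K p s lam (I * w + δ * I))))
        {w : ℂ | 0 < w.re} := by
      apply DifferentiableOn.diffContOnCl
      intro w hw
      rw [Complex.closure_setOfPred_lt_re] at hw
      simp only [mem_ofPred_eq] at hw
      apply DifferentiableAt.differentiableWithinAt
      have h1 : 0 < (I * w + δ * I).im := by
        simp only [add_im, mul_im, I_re, zero_mul, I_im, one_mul, zero_add, ofReal_re, mul_one,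
          ofReal_im, mul_zero, add_zero]
        linarith
      have h2 : DifferentiableAt ℂ (fun w => Ws K p s lam (I * w + δ * I)) w :=
        DifferentiableAt.comp (g := Ws K p s lam) (f := fun w : ℂ => I * w + δ * I) w
          (Ws_diff h1) (by fun_prop)
      exact ((differentiableAt_const I).mul h2).neg.cexp
    have hfd : DiffContOnCl ℂ f {w : ℂ | 0 < w.re} := by
      have h1 := hd2.smul hd1
      have h2 : f = fun w => cexp (-(I * Ws K p s lam (I * w + δ * I))) • g (I * w) := funext hf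
      rw [h2]
      exact h1
    have hWb : ∀ w : ℂ, 0 ≤ w.re → (Ws K p s lam (I * w + δ * I)).im ≤ ∑ k ∈ K, lam k := by
      intro w hw
      have h1 : 0 < (I * w + δ * I).im := by
        simp only [add_im, mul_im, I_re, zero_mul, I_im, one_mul, zero_add, ofReal_re, mul_one,
          ofReal_im, mul_zero, add_zero]
        linarith
      rw [Ws_im]
      refine Finset.sum_le_sum fun k hk => ?_
      have h2 := Cs_le_pi (p k - s k / 2) (p k + s k / 2) h1
      have h3 := hl k hk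
      calc _ ≤ lam k / Real.pi * Real.pi := by gcongr
        _ = lam k := by field_simp
    have hbd : ∀ w : ℂ, 0 ≤ w.re → ‖f w‖ ≤ C₁ * Real.exp (∑ k ∈ K, lam k) := by
      intro w hw
      rw [hnorm]
      have h1 := hWb w hw
      have h2 := hb (I * w) (by simpa using hw)
      gcongr
    have key := PhragmenLindelof.right_half_plane_of_bounded_on_real (f := f)
      (C := C₁ * Real.exp (δ * E)) (z := -(I * z)) hfd ?_ ?_ ?_ ?_
    · rw [hnorm] at key
      have e : I * -(I * z) = z := by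
        rw [mul_neg, ← mul_assoc, I_mul_I]
        ring
      rwa [e] at key
    · refine ⟨1, by norm_num, 0, ?_⟩
      refine Asymptotics.IsBigO.of_bound (C₁ * Real.exp (∑ k ∈ K, lam k)) ?_
      refine mem_inf_of_right ?_
      rw [mem_principal]
      intro w hw
      simp only [mem_ofPred_eq] at hw ⊢
      have := hbd w hw.le
      simpa using this
    · refine isBoundedUnder_of_eventually_le (a := C₁ * Real.exp (∑ k ∈ K, lam k)) ?_
      filter_upwards [eventually_ge_atTop 0] with x hx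
      exact hbd x (by simpa using hx)
    · intro x
      rw [hnorm]
      have e : I * (x * I) = ((-x : ℝ) : ℂ) := by
        have : I * (x * I) = x * (I * I) := by ring
        rw [this, I_mul_I]
        push_cast; ring
      rw [e, hE]
      exact Ws_line hs hl hd hC hb hsm hδ (-x)
    · simpa using hz.le
  have hlim1 : Tendsto (fun δ : ℝ => ‖g z‖ * Real.exp (Ws K p s lam (z + δ * I)).im) (𝓝[>] 0)
      (𝓝 (‖g z‖ * Real.exp (Ws K p s lam z).im)) := by
    have h1 : ContinuousAt (Ws K p s lam) z := (Ws_diff hz).continuousAt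
    have h2 : Tendsto (fun δ : ℝ => z + (δ : ℂ) * I) (𝓝[>] 0) (𝓝 z) := by
      have : Tendsto (fun δ : ℝ => z + (δ : ℂ) * I) (𝓝 0) (𝓝 (z + ((0 : ℝ) : ℂ) * I)) := by
        apply Continuous.tendsto
        fun_prop
      simp only [ofReal_zero, zero_mul, add_zero] at this
      exact this.mono_left nhdsWithin_le_nhds
    have h3 := (Complex.continuous_im.tendsto _).comp (h1.tendsto.comp h2)
    exact ((Real.continuous_exp.tendsto _).comp h3).const_mul _
  have hlim2 : Tendsto (fun δ : ℝ => C₁ * Real.exp (δ * E)) (𝓝[>] 0) (𝓝 C₁) := by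
    have : Tendsto (fun δ : ℝ => C₁ * Real.exp (δ * E)) (𝓝 0) (𝓝 (C₁ * Real.exp (0 * E))) := by
      apply Continuous.tendsto
      fun_prop
    rw [zero_mul, Real.exp_zero, mul_one] at this
    exact this.mono_left nhdsWithin_le_nhds
  have := le_of_tendsto_of_tendsto hlim1 hlim2 (by
    filter_upwards [self_mem_nhdsWithin] with δ hδ
    exact main δ hδ)
  rwa [Ws_im] at this

end

end Pool.Agent.NH10.BM
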