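import Pool.Agent.NH10.BM.Sinc
import Pool.Agent.NH10.BM.Half

/-! # A function with a spectral gap and a small negative part on a long system of intervals -/

set_option autoImplicit false
set_option maxHeartbeats 4000000

open Complex Filter Topology Set MeasureTheory Bornology

namespace Pool.Agent.NH10.BM

variable {G w : ℝ → ℝ}

lemma quarter_pow (n : ℕ) : ((1 : ℝ) / 4) ^ n ≤ Real.exp (-(n : ℝ)) := by
  have h1 : (1 : ℝ) / 4 ≤ Real.exp (-1) := by
    rw [Real.exp_neg, one_div]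
    apply inv_anti₀ (Real.exp_pos 1)
    have := Real.exp_one_lt_d9
    linarith
  calc ((1 : ℝ) / 4) ^ n ≤ (Real.exp (-1)) ^ n := pow_le_pow_left₀ (by norm_num) h1 n
    _ = Real.exp (-(n : ℝ)) := by rw [← Real.exp_nat_mul]; congr 1; ring

/-- the Cauchy integral is small above the intervals -/
theorem line_small (hG : Integrable G) (hw : Integrable w) (hw0 : ∀ x, 0 ≤ w x) {σ δ : ℝ}
    (hσ : 0 < σ) (hσ1 : σ ≤ 1) (hδ : 0 < δ) (h : Gap G σ) :
    ∃ C κ θ R₀ : ℝ, 0 < C ∧ 0 < κ ∧ 0 < θ ∧ 0 < R₀ ∧ ∀ m r : ℝ, R₀ ≤ r →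
      (∀ᵐ x, |x - m| ≤ r / 2 → -(Real.exp (-(δ * r)) * w x) ≤ G x) →
      ∀ x : ℝ, |x - m| ≤ θ * r → ‖Ph G univ (x + I)‖ ≤ C * Real.exp (-(κ * r)) := by
  obtain ⟨W, hW⟩ : ∃ W : ℝ, W = ∫ x, w x := ⟨_, rfl⟩
  obtain ⟨A, hA⟩ : ∃ A : ℝ, A = ∫ x, |G x| := ⟨_, rfl⟩
  have hW0 : 0 ≤ W := by rw [hW]; exact integral_nonneg hw0
  have hA0 : 0 ≤ A := by rw [hA]; exact integral_nonneg fun _ => abs_nonneg _
  obtain ⟨κ₀, hκ₀⟩ : ∃ κ₀ : ℝ, κ₀ = min δ (σ / 16) := ⟨_, rfl⟩
  have hκ0 : 0 < κ₀ := by rw [hκ₀]; exact lt_min hδ (by positivity)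
  have hκδ : κ₀ ≤ δ := by rw [hκ₀]; exact min_le_left _ _
  have hκσ : κ₀ ≤ σ / 16 := by rw [hκ₀]; exact min_le_right _ _
  obtain ⟨ϑ, hϑ⟩ : ∃ ϑ : ℝ, ϑ = min (1 / 16) (κ₀ / (2 * σ)) := ⟨_, rfl⟩
  have hϑ0 : 0 < ϑ := by rw [hϑ]; exact lt_min (by norm_num) (by positivity)
  have hϑ1 : ϑ ≤ 1 / 16 := by rw [hϑ]; exact min_le_left _ _
  have hϑ2 : σ * ϑ ≤ κ₀ / 2 := by
    have : ϑ ≤ κ₀ / (2 * σ) := by rw [hϑ]; exact min_le_right _ _
    calc σ * ϑ ≤ σ * (κ₀ / (2 * σ)) := by gcongr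
      _ = κ₀ / 2 := by field_simp
  obtain ⟨B, hB⟩ : ∃ B : ℝ, B = 8 / κ₀ * (W + 3 * A) := ⟨_, rfl⟩
  have hB0 : 0 ≤ B := by rw [hB]; positivity
  obtain ⟨κ, hκ⟩ : ∃ κ : ℝ, κ = min (κ₀ / 2) (3 * σ * ϑ / 8) := ⟨_, rfl⟩
  have hκp : 0 < κ := by rw [hκ]; exact lt_min (by positivity) (by positivity)
  have hκ1 : κ ≤ κ₀ / 2 := by rw [hκ]; exact min_le_left _ _
  have hκ2 : κ ≤ 3 * σ * ϑ / 8 := by rw [hκ]; exact min_le_right _ _
  obtain ⟨R₀, hR₀⟩ : ∃ R₀ : ℝ, R₀ = max (16 / σ) (max (4 / ϑ) 8) := ⟨_, rfl⟩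
  have hR1 : 16 / σ ≤ R₀ := by rw [hR₀]; exact le_max_left _ _
  have hR2 : 4 / ϑ ≤ R₀ := by rw [hR₀]; exact (le_max_left _ _).trans (le_max_right _ _)
  have hR3 : 8 ≤ R₀ := by rw [hR₀]; exact (le_max_right _ _).trans (le_max_right _ _)
  refine ⟨A + 2 * B + 1, κ, ϑ / 4, R₀, by positivity, hκp, by positivity, by linarith, ?_⟩
  intro m r hr hl x hx
  have hr8 : 8 ≤ r := hR3.trans hr
  have hr0 : 0 < r := by linarith
  have hrσ : 16 ≤ σ * r := by
    have := hR1.trans hr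
    rw [div_le_iff₀ hσ] at this
    linarith
  have hrϑ : 4 ≤ ϑ * r := by
    have := hR2.trans hr
    rw [div_le_iff₀ hϑ0] at this
    linarith
  obtain ⟨n, hn⟩ : ∃ n : ℕ, n = ⌊σ * r / 16⌋₊ := ⟨_, rfl⟩
  have hn1 : 1 ≤ n := by
    rw [hn, Nat.one_le_floor_iff]
    linarith
  have hn2 : (n : ℝ) ≤ σ * r / 16 := by rw [hn]; exact Nat.floor_le (by positivity)
  have hn3 : σ * r / 16 < n + 1 := by rw [hn]; exact Nat.lt_floor_add_one _
  obtain ⟨eJ, heJ⟩ : ∃ eJ : ℝ, eJ = ∫ x in Set.Ioo (m - r / 8) (m + r / 8), |G x| := ⟨_, rfl⟩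
  have heJ0 : 0 ≤ eJ := by
    rw [heJ]; exact setIntegral_nonneg measurableSet_Ioo fun _ _ => abs_nonneg _
  have k1 := int_small hG hw hw0 hσ hσ1 h (m := m) (q := r / 4) (R := r / 8)
    (e := Real.exp (-(δ * r))) (by positivity) (by positivity) (Real.exp_pos _).le hn1
    (by linarith) (by
      filter_upwards [hl] with x hx hx2
      exact hx (by linarith))
  rw [← heJ, ← hW, ← hA] at k1
  have k2 : eJ ≤ B * Real.exp (-(κ₀ / 2 * r)) := by
    have e1 : Real.exp (-(δ * r)) ≤ Real.exp (-(κ₀ * r)) := by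
      apply Real.exp_le_exp.2
      nlinarith
    have e2 : ((1 : ℝ) / 4) ^ n ≤ 3 * Real.exp (-(κ₀ * r)) := by
      refine (quarter_pow n).trans ?_
      have h1 : Real.exp (-(n : ℝ)) ≤ Real.exp (1 + -(κ₀ * r)) := by
        apply Real.exp_le_exp.2
        have : κ₀ * r ≤ σ / 16 * r := mul_le_mul_of_nonneg_right hκσ hr0.le
        linarith
      rw [Real.exp_add] at h1
      refine h1.trans ?_
      have := Real.exp_one_lt_d9
      gcongr
      linarith
    have e3 : r ≤ 2 / κ₀ * Real.exp (κ₀ / 2 * r) := by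
      have h1 := Real.add_one_le_exp (κ₀ / 2 * r)
      have h2 : κ₀ / 2 * r ≤ Real.exp (κ₀ / 2 * r) := by linarith
      calc r = 2 / κ₀ * (κ₀ / 2 * r) := by field_simp
        _ ≤ _ := by gcongr
    have e4 : Real.exp (κ₀ / 2 * r) * Real.exp (-(κ₀ * r)) = Real.exp (-(κ₀ / 2 * r)) := by
      rw [← Real.exp_add]
      congr 1
      ring
    calc eJ ≤ (r / 8 + 1) * (4 * (Real.exp (-(δ * r)) * W + (1 / 4) ^ n * A)) := k1
      _ ≤ r * (4 * (Real.exp (-(κ₀ * r)) * W + 3 * Real.exp (-(κ₀ * r)) * A)) := by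
          gcongr
          linarith
      _ = r * Real.exp (-(κ₀ * r)) * (4 * (W + 3 * A)) := by ring
      _ ≤ (2 / κ₀ * Real.exp (κ₀ / 2 * r)) * Real.exp (-(κ₀ * r)) * (4 * (W + 3 * A)) := by
          gcongr
      _ = B * Real.exp (-(κ₀ / 2 * r)) := by
          rw [mul_assoc (2 / κ₀), e4, hB]
          ring
  obtain ⟨ρ, hρ⟩ : ∃ ρ : ℝ, ρ = ϑ * r := ⟨_, rfl⟩
  have hρ4 : 4 ≤ ρ := by rw [hρ]; exact hrϑ
  have hρR : ρ < r / 8 := by rw [hρ]; nlinarith
  have hσρ : σ * ρ ≤ κ₀ / 2 * r := by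
    rw [hρ]
    calc σ * (ϑ * r) = σ * ϑ * r := by ring
      _ ≤ κ₀ / 2 * r := by gcongr
  have k3 : eJ * Real.exp (σ * ρ) ≤ B := by
    calc eJ * Real.exp (σ * ρ) ≤ (B * Real.exp (-(κ₀ / 2 * r))) * Real.exp (κ₀ / 2 * r) := by
          gcongr
      _ = B := by
          rw [mul_assoc, ← Real.exp_add, neg_add_cancel, Real.exp_zero, mul_one]
  have hz : ‖((x : ℂ) + I) - m‖ ≤ ρ / 2 := by
    have e1 : ((x : ℂ) + I) - m = ((x - m : ℝ) : ℂ) + I := by push_cast; ring
    rw [e1]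
    refine (norm_add_le _ _).trans ?_
    rw [Complex.norm_real, Real.norm_eq_abs, Complex.norm_I]
    have : |x - m| ≤ ρ / 4 := by
      rw [hρ]
      refine hx.trans (le_of_eq ?_)
      ring
    linarith
  have hzi : ((x : ℂ) + I).im ≠ 0 := by simp
  have k4 := disc hG hσ h (show 0 < ρ by linarith) hρR hz
  rw [← heJ, ← hA] at k4
  have k5 := Ph_bound hG (S := Set.Ioo (m - r / 8) (m + r / 8)) hzi
  rw [← heJ] at k5
  have hzi1 : |((x : ℂ) + I).im| = 1 := by simp
  rw [hzi1, div_one] at k5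
  rw [Ph_split hG (measurableSet_Ioo (a := m - r / 8) (b := m + r / 8)) hzi]
  refine (norm_add_le _ _).trans ?_
  have k6 : ‖Ph G (Set.Ioo (m - r / 8) (m + r / 8))ᶜ (x + I)‖ ≤ (A + B) * Real.exp (-(κ * r)) := by
    refine k4.trans ?_
    have h1 : 8 / (3 * ρ) ≤ 1 := by
      rw [div_le_one (by positivity)]
      linarith
    have h2 : Real.exp (-(3 * σ * ρ / 8)) ≤ Real.exp (-(κ * r)) := by
      apply Real.exp_le_exp.2
      rw [hρ]
      have : κ * r ≤ 3 * σ * ϑ / 8 * r := mul_le_mul_of_nonneg_right hκ2 hr0.le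
      linarith
    calc 8 / (3 * ρ) * (A + eJ * Real.exp (σ * ρ)) * Real.exp (-(3 * σ * ρ / 8))
        ≤ 1 * (A + B) * Real.exp (-(κ * r)) := by gcongr
      _ = _ := by ring
  have k7 : eJ ≤ B * Real.exp (-(κ * r)) := by
    refine k2.trans ?_
    gcongr
  have := Real.exp_pos (-(κ * r))
  nlinarith

/-- the short intervals contribute a convergent series -/
lemma short_summable {a r : ℕ → ℝ} (hr : ∀ k, 0 < r k) (hra : ∀ k, r k ≤ a k)
    (har : ∀ k, a k + r k ≤ a (k + 1)) {R₀ : ℝ} (hR₀ : 0 < R₀) :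
    Summable fun k => if r k < R₀ then (r k / a k) ^ 2 else 0 := by
  have ha : ∀ k, 0 < a k := fun k => (hr k).trans_le (hra k)
  have h1 : Summable fun k => 2 * R₀ * (1 / a k - 1 / a (k + 1)) := by
    apply Summable.mul_left
    refine summable_of_sum_range_le (c := 1 / a 0) (fun k => ?_) fun n => ?_
    · have : 1 / a (k + 1) ≤ 1 / a k :=
        one_div_le_one_div_of_le (ha k) (by linarith [har k, hr k])
      linarith
    · rw [Finset.sum_range_sub']
      have := one_div_pos.2 (ha n)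
      linarith
  refine Summable.of_nonneg_of_le (fun k => ?_) (fun k => ?_) h1
  · split_ifs <;> positivity
  · have hak := ha k
    have hrk := hr k
    have h2 : 1 / a (k + 1) ≤ 1 / (a k + r k) :=
      one_div_le_one_div_of_le (by positivity) (har k)
    have h3 : r k / (2 * a k ^ 2) ≤ 1 / a k - 1 / (a k + r k) := by
      have : 1 / a k - 1 / (a k + r k) = r k / (a k * (a k + r k)) := by
        field_simp
        ring
      rw [this]
      apply div_le_div_of_nonneg_left hrk.le (by positivity)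
      nlinarith [hra k]
    split_ifs with hc
    · calc (r k / a k) ^ 2 = 2 * r k * (r k / (2 * a k ^ 2)) := by
            field_simp
        _ ≤ 2 * R₀ * (1 / a k - 1 / a (k + 1)) := by
            have h4 : r k / (2 * a k ^ 2) ≤ 1 / a k - 1 / a (k + 1) := by linarith
            have h5 : 0 ≤ r k / (2 * a k ^ 2) := by positivity
            gcongr
    · have : 0 ≤ r k / (2 * a k ^ 2) := by positivity
      have : 0 ≤ 1 / a k - 1 / a (k + 1) := by linarith
      positivity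

/-- the long intervals contribute a divergent series -/
lemma long_large {a r : ℕ → ℝ} (hr : ∀ k, 0 < r k) (hra : ∀ k, r k ≤ a k)
    (har : ∀ k, a k + r k ≤ a (k + 1)) (hns : ¬ Summable fun k => (r k / a k) ^ 2) {R₀ : ℝ}
    (hR₀ : 0 < R₀) (B : ℝ) : ∃ K : Finset ℕ, (∀ k ∈ K, R₀ ≤ r k) ∧ B < ∑ k ∈ K, (r k / a k) ^ 2 := by
  classical
  have h1 := short_summable hr hra har hR₀
  have h2 : ¬ Summable fun k => if R₀ ≤ r k then (r k / a k) ^ 2 else 0 := by
    intro hc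
    apply hns
    refine (h1.add hc).congr fun k => ?_
    by_cases hk : R₀ ≤ r k
    · rw [if_neg (not_lt.2 hk), if_pos hk, zero_add]
    · rw [if_pos (not_le.1 hk), if_neg hk, add_zero]
  rw [not_summable_iff_tendsto_nat_atTop_of_nonneg (fun k => by split_ifs <;> positivity)] at h2
  obtain ⟨n, hn⟩ := (h2.eventually_gt_atTop B).exists
  refine ⟨(Finset.range n).filter fun k => R₀ ≤ r k, fun k hk => (Finset.mem_filter.1 hk).2, ?_⟩
  rw [Finset.sum_filter]
  exact hn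

/-- vanishing of the Cauchy integral -/
theorem Ph_zero (hG : Integrable G) (hw : Integrable w) (hw0 : ∀ x, 0 ≤ w x) {σ δ : ℝ}
    (hσ : 0 < σ) (hσ1 : σ ≤ 1) (hδ : 0 < δ) (hgap : Gap G σ)
    {a r : ℕ → ℝ} (hr : ∀ k, 0 < r k) (hra : ∀ k, r k ≤ a k)
    (har : ∀ k, a k + r k ≤ a (k + 1)) (hns : ¬ Summable fun k => (r k / a k) ^ 2)
    (hlow : ∀ k, ∀ᵐ x, x ∈ Set.Icc (a k) (a k + r k) → -(Real.exp (-(δ * r k)) * w x) ≤ G x)
    {z : ℂ} (hz : 0 < z.im) : Ph G univ z = 0 := by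
  have ha : ∀ k, 0 < a k := fun k => (hr k).trans_le (hra k)
  have hmono : Monotone a := monotone_nat_of_le_succ fun k => by linarith [har k, hr k]
  obtain ⟨C, κ, θ, R₀, hC, hκ, hθ, hR₀, hline⟩ := line_small hG hw hw0 hσ hσ1 hδ hgap
  obtain ⟨A, hA⟩ : ∃ A : ℝ, A = ∫ x, |G x| := ⟨_, rfl⟩
  have hA0 : 0 ≤ A := by rw [hA]; exact integral_nonneg fun _ => abs_nonneg _
  obtain ⟨C₁, hC₁⟩ : ∃ C₁ : ℝ, C₁ = C + A := ⟨_, rfl⟩
  have hC₁0 : 0 ≤ C₁ := by rw [hC₁]; positivity
  obtain ⟨θ', hθ'⟩ : ∃ θ' : ℝ, θ' = min θ (1 / 4) := ⟨_, rfl⟩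
  have hθ0 : 0 < θ' := by rw [hθ']; exact lt_min hθ (by norm_num)
  have hθ1 : θ' ≤ θ := by rw [hθ']; exact min_le_left _ _
  have hθ2 : θ' ≤ 1 / 4 := by rw [hθ']; exact min_le_right _ _
  obtain ⟨g, hg⟩ : ∃ g : ℂ → ℂ, ∀ z, g z = Ph G univ (z + I) := ⟨_, fun _ => rfl⟩
  have hgd : ∀ z : ℂ, 0 ≤ z.im → DifferentiableAt ℂ g z := by
    intro z hz
    have h1 : 0 < (z + I).im := by simp; linarith
    have h2 : DifferentiableAt ℂ (Ph G univ) (z + I) :=
      Ph_diff hG MeasurableSet.univ h1 fun t _ => by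
        have := norm_low t (z + I)
        rwa [abs_of_pos h1] at this
    have h3 : g = fun z => Ph G univ (z + I) := funext hg
    rw [h3]
    exact DifferentiableAt.comp (g := Ph G univ) (f := fun z : ℂ => z + I) z h2 (by fun_prop)
  have hgc : DiffContOnCl ℂ g {z | 0 < z.im} := by
    apply DifferentiableOn.diffContOnCl
    rw [Complex.closure_setOfPred_lt_im]
    intro z hz
    exact (hgd z hz).differentiableWithinAt
  have hgb : ∀ z : ℂ, 0 ≤ z.im → ‖g z‖ ≤ C₁ := by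
    intro z hz
    have h1 : 1 ≤ (z + I).im := by simp; linarith
    have h2 := Ph_bound hG (S := univ) (z := z + I) (by linarith)
    rw [setIntegral_univ, ← hA, abs_of_pos (by linarith)] at h2
    rw [hg]
    refine h2.trans ?_
    rw [hC₁]
    have h3 : A / (z + I).im ≤ A := div_le_self hA0 h1
    linarith
  -- the function vanishes above height one
  have key : ∀ z : ℂ, 0 < z.im → g z = 0 := by
    intro z hz
    by_contra hne
    have hgz : 0 < ‖g z‖ := norm_pos_iff.2 hne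
    obtain ⟨Q, hQ⟩ : ∃ Q : ℝ, Q = (2 + |z.re| / a 0) ^ 2 + (z.im / a 0) ^ 2 := ⟨_, rfl⟩
    have ha0 := ha 0
    have hQ0 : 0 < Q := by rw [hQ]; positivity
    have hpi := Real.pi_pos
    obtain ⟨c, hc⟩ : ∃ c : ℝ, c = κ / Real.pi * (z.im * θ' / Q) := ⟨_, rfl⟩
    have hc0 : 0 < c := by rw [hc]; positivity
    obtain ⟨K, hK1, hK2⟩ := long_large hr hra har hns hR₀ (Real.log (C₁ / ‖g z‖ + 1) / c)
    have hh := half (g := g) (C₁ := C₁) (K := K) (p := fun k => a k + r k / 2)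
      (s := fun k => θ' * r k) (lam := fun k => κ * r k) hgc hC₁0 hgb
      (fun k _ => mul_pos hθ0 (hr k)) (fun k _ => (mul_pos hκ (hr k)).le)
      (by
        intro j _ k _ x hxj hxk
        have b1 : |x - (a j + r j / 2)| ≤ r j / 4 := by
          refine hxj.trans ?_
          have := mul_le_mul_of_nonneg_right hθ2 (hr j).le
          linarith
        have b2 : |x - (a k + r k / 2)| ≤ r k / 4 := by
          refine hxk.trans ?_
          have := mul_le_mul_of_nonneg_right hθ2 (hr k).le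
          linarith
        rw [abs_le] at b1 b2
        have hrj := hr j
        have hrk := hr k
        rcases lt_trichotomy j k with hjk | hjk | hjk
        · exfalso
          have h1 : a (j + 1) ≤ a k := hmono hjk
          have h2 := har j
          linarith [b1.2, b2.1]
        · exact hjk
        · exfalso
          have h1 : a (k + 1) ≤ a j := hmono hjk
          have h2 := har k
          linarith [b2.2, b1.1])
      (by
        intro k hk x hx
        rw [hg]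
        have h1 := hline (a k + r k / 2) (r k) (hK1 k hk) (by
          filter_upwards [hlow k] with x hx hx2
          apply hx
          rw [abs_le] at hx2
          exact ⟨by linarith [hx2.1], by linarith [hx2.2]⟩) x
          (hx.trans (mul_le_mul_of_nonneg_right hθ1 (hr k).le))
        refine h1.trans ?_
        have := Real.exp_pos (-(κ * r k))
        rw [hC₁]
        gcongr
        linarith) hz
    -- lower bound for the exponent
    have hlow2 : c * ∑ k ∈ K, (r k / a k) ^ 2 ≤ ∑ k ∈ K, κ * r k / Real.pi *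
        (Cs (a k + r k / 2 - θ' * r k / 2) (a k + r k / 2 + θ' * r k / 2) z).im := by
      rw [Finset.mul_sum]
      refine Finset.sum_le_sum fun k hk => ?_
      have hak := ha k
      have hrk := hr k
      have hrak := hra k
      have ha0k : a 0 ≤ a k := hmono (Nat.zero_le k)
      have hθr : θ' * r k ≤ r k / 4 := by
        have := mul_le_mul_of_nonneg_right hθ2 hrk.le
        linarith
      have h1 := Cs_low (a := a k + r k / 2 - θ' * r k / 2) (b := a k + r k / 2 + θ' * r k / 2)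
        (R := 2 * a k + |z.re|) (by nlinarith [mul_pos hθ0 hrk]) hz (by
          intro t ht
          have h2 : |t| ≤ 2 * a k := by
            have := mul_pos hθ0 hrk
            rw [abs_le]
            constructor
            · linarith [ht.1]
            · linarith [ht.2]
          have := abs_sub t z.re
          linarith)
      have e1 : z.im * (a k + r k / 2 + θ' * r k / 2 - (a k + r k / 2 - θ' * r k / 2)) =
          z.im * (θ' * r k) := by ring
      rw [e1] at h1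
      have h3 : (2 * a k + |z.re|) ^ 2 + z.im ^ 2 ≤ Q * a k ^ 2 := by
        have h4 : |z.re| ≤ |z.re| / a 0 * a k := by
          rw [div_mul_eq_mul_div, le_div_iff₀ ha0]
          exact mul_le_mul_of_nonneg_left ha0k (abs_nonneg _)
        have h5 : z.im ≤ z.im / a 0 * a k := by
          rw [div_mul_eq_mul_div, le_div_iff₀ ha0]
          exact mul_le_mul_of_nonneg_left ha0k hz.le
        have h6 : (2 * a k + |z.re|) ^ 2 ≤ ((2 + |z.re| / a 0) * a k) ^ 2 := by
          apply pow_le_pow_left₀ (by positivity)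
          nlinarith
        have h7 : z.im ^ 2 ≤ (z.im / a 0 * a k) ^ 2 := pow_le_pow_left₀ hz.le h5 2
        rw [hQ]
        nlinarith
      have h4 : z.im * (θ' * r k) / (Q * a k ^ 2) ≤
          (Cs (a k + r k / 2 - θ' * r k / 2) (a k + r k / 2 + θ' * r k / 2) z).im := by
        refine le_trans ?_ h1
        apply div_le_div_of_nonneg_left (by positivity) (by positivity) h3
      calc c * (r k / a k) ^ 2 = κ * r k / Real.pi * (z.im * (θ' * r k) / (Q * a k ^ 2)) := by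
            rw [hc]
            field_simp
        _ ≤ _ := by gcongr
    have h5 : Real.log (C₁ / ‖g z‖ + 1) < c * ∑ k ∈ K, (r k / a k) ^ 2 := by
      rw [div_lt_iff₀ hc0] at hK2
      linarith
    have h6 : C₁ / ‖g z‖ + 1 < Real.exp (∑ k ∈ K, κ * r k / Real.pi *
        (Cs (a k + r k / 2 - θ' * r k / 2) (a k + r k / 2 + θ' * r k / 2) z).im) := by
      rw [← Real.log_lt_iff_lt_exp (by positivity)]
      linarith
    have h7 : ‖g z‖ * (C₁ / ‖g z‖ + 1) < C₁ := by
      refine lt_of_lt_of_le ?_ hh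
      exact mul_lt_mul_of_pos_left h6 hgz
    have h8 : ‖g z‖ * (C₁ / ‖g z‖ + 1) = C₁ + ‖g z‖ := by field_simp
    linarith
  -- the identity theorem
  have hU : IsPreconnected {z : ℂ | 0 < z.im} := by
    have : Convex ℝ {z : ℂ | 0 < z.im} := convex_halfSpace_im_gt 0
    exact this.isPreconnected
  have hopen : IsOpen {z : ℂ | 0 < z.im} := isOpen_lt continuous_const Complex.continuous_im
  have han : AnalyticOnNhd ℂ (Ph G univ) {z : ℂ | 0 < z.im} := by
    refine DifferentiableOn.analyticOnNhd (fun z hz => ?_) hopen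
    exact (Ph_diff hG MeasurableSet.univ hz fun t _ => by
      have := norm_low t z
      rwa [abs_of_pos hz] at this).differentiableWithinAt
  have h3i : (3 * I : ℂ) ∈ {z : ℂ | 0 < z.im} := by simp
  have hev : Ph G univ =ᶠ[𝓝 (3 * I)] 0 := by
    have h1 : {z : ℂ | 1 < z.im} ∈ 𝓝 (3 * I : ℂ) := by
      apply (isOpen_lt continuous_const Complex.continuous_im).mem_nhds
      show (1 : ℝ) < (3 * I : ℂ).im
      simp
    filter_upwards [h1] with w hw
    have h2 := key (w - I) (by simp; exact hw)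
    rw [hg, sub_add_cancel] at h2
    exact h2
  exact han.eqOn_zero_of_preconnected_of_eventuallyEq_zero hU h3i hev hz

/-- Poisson integrals -/
lemma Ph_poisson (hG : Integrable G) {x₀ y : ℝ} (hy : 0 < y) :
    (Ph G univ (x₀ + y * I)).im = ∫ t, y / ((t - x₀) ^ 2 + y ^ 2) * G t := by
  have hz : ((x₀ : ℂ) + y * I).im ≠ 0 := by simp [hy.ne']
  unfold Ph
  rw [setIntegral_univ]
  have h1 := integral_im (Ph_int hG hz)
  have h2 : (∫ t : ℝ, (G t : ℂ) / ((t : ℂ) - (x₀ + y * I))).im =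
      ∫ t : ℝ, ((G t : ℂ) / ((t : ℂ) - (x₀ + y * I))).im := h1.symm
  rw [h2]
  refine integral_congr_ae (ae_of_all _ fun t => ?_)
  show ((G t : ℂ) / ((t : ℂ) - (x₀ + y * I))).im = _
  rw [div_eq_mul_inv, Complex.im_ofReal_mul, Complex.inv_im, Complex.normSq_apply]
  have e1 : ((t : ℂ) - (x₀ + y * I)).re = t - x₀ := by simp
  have e2 : ((t : ℂ) - (x₀ + y * I)).im = -y := by simp
  rw [e1, e2]
  have : (t - x₀) * (t - x₀) + -y * -y = (t - x₀) ^ 2 + y ^ 2 := by ring
  rw [this, neg_neg]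
  ring

/-- **A function with a spectral gap whose negative part is exponentially small on a system of
intervals `[a k, a k + r k]` with `∑ (r k / a k) ^ 2 = ∞` vanishes.** -/
theorem sparse_zero (hG : Integrable G) (hw : Integrable w) (hw0 : ∀ x, 0 ≤ w x)
    (hcont : ∀ᵐ x, ContinuousAt G x) {σ δ : ℝ}
    (hσ : 0 < σ) (hσ1 : σ ≤ 1) (hδ : 0 < δ) (hgap : Gap G σ)
    {a r : ℕ → ℝ} (hr : ∀ k, 0 < r k) (hra : ∀ k, r k ≤ a k)
    (har : ∀ k, a k + r k ≤ a (k + 1)) (hns : ¬ Summable fun k => (r k / a k) ^ 2)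
    (hlow : ∀ k, ∀ᵐ x, x ∈ Set.Icc (a k) (a k + r k) → -(Real.exp (-(δ * r k)) * w x) ≤ G x) :
    ∀ᵐ x, G x = 0 := by
  have hpi := Real.pi_pos
  filter_upwards [hcont] with x₀ hx₀
  obtain ⟨φ, hφ⟩ : ∃ φ : ℝ → ℝ, ∀ x, φ x = Real.pi⁻¹ * (1 + x ^ 2)⁻¹ := ⟨_, fun _ => rfl⟩
  have h1 : ∀ x, 0 ≤ φ x := fun x => by rw [hφ]; positivity
  have h2 : ∫ x, φ x = 1 := by
    simp_rw [hφ]
    rw [integral_const_mul, integral_univ_inv_one_add_sq]
    field_simp
  have h3 : Tendsto (fun x : ℝ => ‖x‖ ^ Module.finrank ℝ ℝ * φ x) (cobounded ℝ) (𝓝 0) := by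
    have h4 : Tendsto (fun x : ℝ => Real.pi⁻¹ * ‖x‖⁻¹) (cobounded ℝ) (𝓝 0) := by
      have := (tendsto_inv_atTop_zero.comp (tendsto_norm_cobounded_atTop (E := ℝ))).const_mul
        (Real.pi⁻¹)
      rw [mul_zero] at this
      exact this
    refine squeeze_zero' (Eventually.of_forall fun x => mul_nonneg (by positivity) (h1 x)) ?_ h4
    filter_upwards [(tendsto_norm_cobounded_atTop (E := ℝ)).eventually_gt_atTop 0] with x hx
    rw [hφ, Module.finrank_self, pow_one]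
    have h5 : ‖x‖ * (1 + x ^ 2)⁻¹ ≤ ‖x‖⁻¹ := by
      rw [← div_eq_mul_inv, div_le_iff₀ (by positivity), ← sq_abs, ← Real.norm_eq_abs]
      have : ‖x‖⁻¹ * (1 + ‖x‖ ^ 2) = ‖x‖⁻¹ + ‖x‖ := by
        field_simp
      rw [this]
      have : 0 < ‖x‖⁻¹ := by positivity
      linarith
    calc ‖x‖ * (Real.pi⁻¹ * (1 + x ^ 2)⁻¹) = Real.pi⁻¹ * (‖x‖ * (1 + x ^ 2)⁻¹) := by ring
      _ ≤ _ := by gcongr
  have h4 := tendsto_integral_comp_smul_smul_of_integrable' (μ := volume) h1 h2 h3 hG hx₀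
  refine tendsto_nhds_unique h4 ?_
  refine tendsto_const_nhds.congr' ?_
  filter_upwards [eventually_gt_atTop 0] with c hc
  have hy : 0 < 1 / c := by positivity
  have h5 := Ph_zero hG hw hw0 hσ hσ1 hδ hgap hr hra har hns hlow
    (z := (x₀ : ℂ) + ((1 / c : ℝ) : ℂ) * I) (by simp [hc])
  have h6 := Ph_poisson hG (x₀ := x₀) hy
  rw [h5, Complex.zero_im] at h6
  have h7 : ∀ t : ℝ, (c ^ Module.finrank ℝ ℝ * φ (c • (x₀ - t))) • G t =
      Real.pi⁻¹ * (1 / c / ((t - x₀) ^ 2 + (1 / c) ^ 2) * G t) := by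
    intro t
    rw [hφ, Module.finrank_self, pow_one, smul_eq_mul, smul_eq_mul]
    have : 1 + (c * (x₀ - t)) ^ 2 = c ^ 2 * ((t - x₀) ^ 2 + (1 / c) ^ 2) := by
      field_simp
      ring
    rw [this]
    have hd : 0 < (t - x₀) ^ 2 + (1 / c) ^ 2 := by positivity
    field_simp
  simp_rw [h7]
  rw [integral_const_mul, ← h6, mul_zero]

end Pool.Agent.NH10.BM
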