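import Pool.Agent.Y744.PCR.Core

/-! # Odd functions whose periods do not lie in a lattice -/

set_option autoImplicit false
set_option maxHeartbeats 4000000

open MeasureTheory Filter Topology Real

namespace Pool.Agent.NH10.BM

open Pool.Agent.Y744

/-- an odd function whose periods generate a dense group vanishes where it is continuous -/
lemma per_zero_dense {E : ℝ → ℝ} (hloc : ∀ a b, IntervalIntegrable E volume a b)
    (hodd : ∀ x, E (-x) = -E x) {S : Set ℝ}
    (hS : Dense ((AddSubgroup.closure S : AddSubgroup ℝ) : Set ℝ))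
    (h1 : ∀ l ∈ S, ∀ᵐ x, E (x + l) = E x) (x : ℝ)
    (hx : ContinuousAt E x) : E x = 0 := by
  -- the primitive
  set P : ℝ → ℝ := fun x => ∫ t in (0 : ℝ)..x, E t with hP
  have hPc : Continuous P := intervalIntegral.continuous_primitive hloc 0
  have key : ∀ δ : ℝ, ∀ x : ℝ, P (x + δ) - P x = 0 := by
    intro δ
    set Φ : ℝ → ℝ := fun x => P (x + δ) - P x with hΦ
    have hΦc : Continuous Φ := (hPc.comp (by fun_prop)).sub hPc
    have hΦi : ∀ x, Φ x = ∫ t in x..(x + δ), E t := by
      intro x
      rw [hΦ, hP]
      exact (intervalIntegral.integral_interval_sub_left (hloc _ _) (hloc _ _))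
    have hper : ∀ l, (∀ᵐ x, E (x + l) = E x) → ∀ x, Φ (x + l) = Φ x := by
      intro l hl x
      rw [hΦi, hΦi]
      have e1 : ∫ t in x..(x + δ), E (t + l) = ∫ t in (x + l)..(x + δ + l), E t :=
        intervalIntegral.integral_comp_add_right _ _
      have e2 : x + l + δ = x + δ + l := by ring
      rw [e2, ← e1]
      refine intervalIntegral.integral_congr_ae ?_
      filter_upwards [hl] with t ht _ using ht
    -- the subgroup of periods
    let G : AddSubgroup ℝ :=
      { carrier := {l | ∀ x, Φ (x + l) = Φ x}
        zero_mem' := fun x => by rw [add_zero]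
        add_mem' := fun {a b} ha hb x => by rw [← add_assoc, hb, ha]
        neg_mem' := fun {a} ha x => by
          have := ha (x + -a)
          rw [neg_add_cancel_right] at this
          exact this.symm }
    have hd : Dense (G : Set ℝ) := by
      refine hS.mono ?_
      rw [SetLike.coe_subset_coe, AddSubgroup.closure_le]
      intro y hy
      exact hper y (h1 y hy)
    have hclosed : IsClosed (G : Set ℝ) := by
      have : (G : Set ℝ) = ⋂ x, {l | Φ (x + l) = Φ x} := by
        ext l
        simp only [Set.mem_iInter]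
        rfl
      rw [this]
      exact isClosed_iInter fun x => isClosed_eq (hΦc.comp (by fun_prop)) continuous_const
    have hall : ∀ l : ℝ, l ∈ G := by
      intro l
      have : closure (G : Set ℝ) = Set.univ := hd.closure_eq
      rw [hclosed.closure_eq] at this
      have : l ∈ (G : Set ℝ) := by rw [this]; trivial
      exact this
    have h0 : Φ (-δ / 2) = 0 := by
      rw [hΦi]
      have e : -δ / 2 + δ = δ / 2 := by ring
      rw [e]
      have e3 : ∫ t in (-δ / 2)..(δ / 2), E (-t) = ∫ t in (-(δ / 2))..(-(-δ / 2)), E t :=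
        intervalIntegral.integral_comp_neg _
      have e4 : ∫ t in (-δ / 2)..(δ / 2), E (-t) = -∫ t in (-δ / 2)..(δ / 2), E t := by
        rw [← intervalIntegral.integral_neg]
        exact intervalIntegral.integral_congr fun t _ => hodd t
      have e5 : -(δ / 2) = -δ / 2 := by ring
      have e6 : -(-δ / 2) = δ / 2 := by ring
      rw [e5, e6, e4] at e3
      linarith
    intro x
    have h3 := hall (-δ / 2 - x) x
    rw [add_sub_cancel] at h3
    show Φ x = 0
    rw [← h3, h0]
  have hP0 : ∀ y, P y = 0 := by
    intro y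
    have := key y 0
    rw [zero_add] at this
    have h0 : P 0 = 0 := by rw [hP]; simp
    linarith
  have hd : HasDerivAt P (E x) x := by
    refine intervalIntegral.integral_hasDerivAt_right (hloc _ _) ?_ hx
    refine ⟨Set.uIoc (x - 1) (x + 1), ?_,
      (hloc (x - 1) (x + 1)).aestronglyMeasurable_restrict_uIoc⟩
    rw [Set.uIoc_of_le (by linarith)]
    exact Ioc_mem_nhds (by linarith) (by linarith)
  have hd0 : HasDerivAt P 0 x := by
    have : P = fun _ => 0 := funext hP0
    rw [this]
    exact hasDerivAt_const x 0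
  exact hd.unique hd0

/-- conclusion for a limit -/
lemma limit_eq_dense {A' : ℝ → ℝ} {C0 : ℝ} (hA' : Monotone A')
    (hneg : ∀ y, y < 0 → A' y = 0) (hb : ∀ y, |A' y| ≤ C0 * (1 + y ^ 2)) (h0 : 1 ≤ A' 0)
    {S : Set ℝ} (hS : Dense ((AddSubgroup.closure S : AddSubgroup ℝ) : Set ℝ))
    (h1 : ∀ l ∈ S, ∀ᵐ x, dE A' (x + l) = dE A' x) (x : ℝ) :
    A' x = AG x := by
  have hEm := dE_meas hA'
  have hEb := dE_bound hb
  have hloc : ∀ a b, IntervalIntegrable (dE A') volume a b := by
    intro a b
    have hc : IntervalIntegrable (fun x : ℝ => (2 * C0 + 4) * (1 + x ^ 2)) volume a b :=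
      (by fun_prop : Continuous fun x : ℝ => (2 * C0 + 4) * (1 + x ^ 2)).intervalIntegrable _ _
    refine hc.mono_fun hEm.aestronglyMeasurable (Eventually.of_forall fun x => ?_)
    show ‖dE A' x‖ ≤ ‖(2 * C0 + 4) * (1 + x ^ 2)‖
    rw [Real.norm_eq_abs, Real.norm_eq_abs]
    exact (hEb x).trans (le_abs_self _)
  have key : ∀ y, 0 < y → ContinuousAt A' y → A' y = 1 + 2 * gp y := by
    intro y hy hcy
    have hAGc : ContinuousAt AG y := by
      have : AG =ᶠ[𝓝 y] fun x => 1 + 2 * gp x := by
        filter_upwards [lt_mem_nhds hy] with z hz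
        unfold AG
        rw [if_neg (by linarith)]
      exact (continuousAt_const.add
        (continuousAt_const.mul gp_cont.continuousAt)).congr this.symm
    have hEc : ContinuousAt (dE A') y := by
      have : dE A' =ᶠ[𝓝 y] fun x => A' x - AG x := by
        filter_upwards [lt_mem_nhds hy] with z hz
        exact dE_pos hneg hz
      exact (hcy.sub hAGc).congr this.symm
    have h3 := per_zero_dense hloc (dE_odd A') hS h1 y hEc
    rw [dE_pos hneg hy] at h3
    have h4 : AG y = 1 + 2 * gp y := by
      unfold AG
      rw [if_neg (by linarith)]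
    linarith
  have hdense : Dense {x | ContinuousAt A' x} := by
    have := hA'.countable_not_continuousAt.dense_compl ℝ
    refine this.mono fun x hx => ?_
    by_contra hc
    exact hx hc
  -- upper bound
  have hup : ∀ y, 0 ≤ y → A' y ≤ 1 + 2 * gp y := by
    intro y hy
    refine le_of_forall_pos_le_add fun ε hε => ?_
    have hc : ContinuousAt (fun z => 1 + 2 * gp z) y :=
      continuousAt_const.add (continuousAt_const.mul gp_cont.continuousAt)
    have h3 : ∀ᶠ z in 𝓝 y, 1 + 2 * gp z < 1 + 2 * gp y + ε := hc.eventually_lt_const (by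
      show 1 + 2 * gp y < _
      linarith)
    obtain ⟨δ, hδ, h4⟩ := Metric.eventually_nhds_iff.1 h3
    obtain ⟨z, hz, hz1, hz2⟩ := hdense.exists_between (show y < y + δ by linarith)
    have h5 := h4 (show dist z y < δ by rw [Real.dist_eq, abs_lt]; constructor <;> linarith)
    have h6 := key z (by linarith) hz
    have h7 := hA' hz1.le
    linarith
  rcases lt_trichotomy x 0 with hx | rfl | hx
  · rw [hneg x hx]
    unfold AG
    rw [if_pos hx]
  · have h3 := hup 0 le_rfl
    rw [gp_zero] at h3
    unfold AG
    rw [if_neg (lt_irrefl _), gp_zero]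
    linarith
  · have h3 := hup x hx.le
    unfold AG
    rw [if_neg (by linarith)]
    refine le_antisymm h3 ?_
    refine le_of_forall_pos_le_add fun ε hε => ?_
    have hc : ContinuousAt (fun z => 1 + 2 * gp z) x :=
      continuousAt_const.add (continuousAt_const.mul gp_cont.continuousAt)
    have h3 : ∀ᶠ z in 𝓝 x, 1 + 2 * gp x - ε < 1 + 2 * gp z := hc.eventually_const_lt (by
      show _ < 1 + 2 * gp x
      linarith)
    obtain ⟨δ, hδ, h4⟩ := Metric.eventually_nhds_iff.1 h3
    obtain ⟨z, hz, hz1, hz2⟩ := hdense.exists_between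
      (show max (x / 2) (x - δ / 2) < x by
        rw [max_lt_iff]; constructor <;> linarith)
    have hz3 : x / 2 < z := (le_max_left _ _).trans_lt hz1
    have hz4 : x - δ / 2 < z := (le_max_right _ _).trans_lt hz1
    have h5 := h4 (show dist z x < δ by rw [Real.dist_eq, abs_lt]; constructor <;> linarith)
    have h6 := key z (by linarith) hz
    have h7 := hA' hz2.le
    linarith

end Pool.Agent.NH10.BM
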