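import Pool.Agent.NH10.BM.Fin
import Pool.Agent.NH10.BM.Per
import Pool.Agent.Y744.PCR.Glue

/-! # One sided bounds on a long system of intervals -/

set_option autoImplicit false
set_option maxHeartbeats 4000000

open MeasureTheory Filter Topology Real Set

namespace Pool.Agent.NH10.BM

open Pool.Agent.Y744

/-- **a function with a spectral gap and small negative part on a long system vanishes** -/
theorem high_sparse {κ : ℝ} {H : ℝ → ℝ} {B C δ : ℝ} (hκ : 0 < κ) (hm : Measurable H)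
    (he : ∀ x, H (-x) = H x) (hB : ∀ x, |H x| ≤ B * (1 + x ^ 2)) (hcont : ∀ᵐ x, ContinuousAt H x)
    (hC : 0 ≤ C) (hδ : 0 < δ) {a r : ℕ → ℝ} (hr : ∀ k, 0 < r k) (hra : ∀ k, r k ≤ a k)
    (har : ∀ k, a k + r k ≤ a (k + 1)) (hns : ¬ Summable fun k => (r k / a k) ^ 2)
    (hl : ∀ k, ∀ᵐ x, x ∈ Set.Icc (a k) (a k + r k) → -(C * Real.exp (-(δ * r k))) ≤ H x)
    (hz : ∀ K, TK κ K → ∫ x, H x * ct K x = 0) : ∀ᵐ x, H x = 0 := by
  have hpi := Real.pi_pos
  obtain ⟨K, hK, hK0, hKp, -⟩ := exists_pos (κ := κ / 2) (by positivity)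
  have key : ∀ ε : ℝ, 0 < ε → ε ≤ 1 → ∀ᵐ x, H x * ct K (ε * x) = 0 := by
    intro ε hε hε1
    obtain ⟨L, hL⟩ : ∃ L : ℝ → ℝ, L = fun α => ε⁻¹ * K (ε⁻¹ * α) := ⟨_, rfl⟩
    have hLt : TK (κ / 2) L := by
      rw [hL]
      refine (hK.dil hε).mono ?_
      have : ε * (κ / 2) ≤ 1 * (κ / 2) := mul_le_mul_of_nonneg_right hε1 (by positivity)
      linarith
    have hLc : ∀ x, ct L x = ct K (ε * x) := fun x => by
      rw [hL]
      exact TK.ct_dil K hε x
    have hGi := int_mul_ct hm hB hLt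
    obtain ⟨G, hGd⟩ : ∃ G : ℝ → ℝ, G = fun x => H x * ct L x := ⟨_, rfl⟩
    rw [← hGd] at hGi
    have hev : ∀ x, G (-x) = G x := by
      intro x
      rw [hGd]
      show H (-x) * ct L (-x) = H x * ct L x
      rw [he, TK.ct_neg]
    have hgap : Gap G (min 1 (π * κ)) := by
      intro ξ hξ
      have h1 : |ξ| ≤ π * κ := hξ.trans (min_le_right _ _)
      obtain ⟨s, hs⟩ : ∃ s : ℝ, s = ξ / (2 * π) := ⟨_, rfl⟩
      have hs1 : |s| ≤ κ / 2 := by
        rw [hs, abs_div, abs_of_pos (by positivity : (0 : ℝ) < 2 * π),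
          div_le_iff₀ (by positivity)]
        linarith
      have hc0 : ∫ x, G x * Real.cos (ξ * x) = 0 := by
        have h2 := hz _ ((hLt.modul s).mono (by linarith))
        rw [← h2]
        refine integral_congr_ae (Eventually.of_forall fun x => ?_)
        show G x * Real.cos (ξ * x) = H x * ct (fun α => (L (α - s) + L (α + s)) / 2) x
        rw [hLt.ct_modul s x, hGd]
        have : 2 * π * s * x = ξ * x := by
          rw [hs]
          field_simp
        rw [this]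
        ring
      have hs0 : ∫ x, G x * Real.sin (ξ * x) = 0 := by
        have h1 : ∫ x, G x * Real.sin (ξ * x) = ∫ x, G (-x) * Real.sin (ξ * (-x)) :=
          (integral_neg_eq_self (fun x => G x * Real.sin (ξ * x)) volume).symm
        have h2 : ∫ x, G (-x) * Real.sin (ξ * (-x)) = -∫ x, G x * Real.sin (ξ * x) := by
          rw [← integral_neg]
          refine integral_congr_ae (Eventually.of_forall fun x => ?_)
          show G (-x) * Real.sin (ξ * (-x)) = -(G x * Real.sin (ξ * x))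
          rw [hev, mul_neg, Real.sin_neg]
          ring
        linarith
      have hic : Integrable fun x => G x * Real.cos (ξ * x) :=
        hGi.mul_bdd (c := 1) (by fun_prop) (Eventually.of_forall fun x => by
          rw [Real.norm_eq_abs]; exact Real.abs_cos_le_one _)
      have his : Integrable fun x => G x * Real.sin (ξ * x) :=
        hGi.mul_bdd (c := 1) (by fun_prop) (Eventually.of_forall fun x => by
          rw [Real.norm_eq_abs]; exact Real.abs_sin_le_one _)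
      have e : ∀ x : ℝ, (G x : ℂ) * Complex.exp (Complex.I * (ξ * x)) =
          ((G x * Real.cos (ξ * x) : ℝ) : ℂ) + ((G x * Real.sin (ξ * x) : ℝ) : ℂ) * Complex.I := by
        intro x
        rw [mul_comm Complex.I, Complex.exp_mul_I]
        push_cast
        ring
      simp_rw [e]
      rw [integral_add hic.ofReal (his.ofReal.mul_const _), integral_mul_const]
      have i1 : ∫ x, ((G x * Real.cos (ξ * x) : ℝ) : ℂ) =
          ((∫ x, G x * Real.cos (ξ * x) : ℝ) : ℂ) := integral_ofReal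
      have i2 : ∫ x, ((G x * Real.sin (ξ * x) : ℝ) : ℂ) =
          ((∫ x, G x * Real.sin (ξ * x) : ℝ) : ℂ) := integral_ofReal
      rw [i1, i2, hc0, hs0]
      simp
    have hLn : ∀ x, 0 ≤ ct L x := fun x => by rw [hLc]; exact hK0 _
    have hLi : Integrable (ct L) := by
      have := int_mul_ct (H := fun _ => (1 : ℝ)) (B := 1) measurable_const (fun x => by
        rw [abs_one, one_mul]
        nlinarith [sq_nonneg x]) hLt
      simpa using this
    have hfin := sparse_zero (G := G) (w := fun x => C * ct L x) hGi (hLi.const_mul C)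
      (fun x => mul_nonneg hC (hLn x)) (by
        filter_upwards [hcont] with x hx
        rw [hGd]
        exact hx.mul hLt.ct_cont.continuousAt)
      (σ := min 1 (π * κ)) (δ := δ) (lt_min one_pos (by positivity)) (min_le_left _ _) hδ hgap
      hr hra har hns (fun k => by
        filter_upwards [hl k] with x hx hx2
        have h1 := hx hx2
        rw [hGd]
        have h2 := mul_le_mul_of_nonneg_right h1 (hLn x)
        calc -(Real.exp (-(δ * r k)) * (C * ct L x)) =
            -(C * Real.exp (-(δ * r k))) * ct L x := by ring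
          _ ≤ H x * ct L x := h2)
    filter_upwards [hfin] with x hx
    rw [← hLc]
    rw [hGd] at hx
    exact hx
  have h1 : ∀ᵐ x, ∀ n : ℕ, H x * ct K (1 / ((n : ℝ) + 1) * x) = 0 := by
    rw [ae_all_iff]
    intro n
    have hn : (0 : ℝ) < (n : ℝ) + 1 := by positivity
    refine key _ (by positivity) ?_
    rw [div_le_one hn]
    have : (0 : ℝ) ≤ n := Nat.cast_nonneg n
    linarith
  filter_upwards [h1] with x hx
  have h2 : Tendsto (fun n : ℕ => 1 / ((n : ℝ) + 1) * x) atTop (𝓝 (0 * x)) :=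
    tendsto_one_div_add_atTop_nhds_zero_nat.mul_const x
  rw [zero_mul] at h2
  have h3 : Tendsto (fun n : ℕ => ct K (1 / ((n : ℝ) + 1) * x)) atTop (𝓝 (ct K 0)) :=
    (hK.ct_cont.tendsto 0).comp h2
  obtain ⟨n, hn⟩ := (h3.eventually_const_lt hKp).exists
  exact (mul_eq_zero.1 (hx n)).resolve_right hn.ne'

/-- continuity almost everywhere of the limit -/
lemma dE_cont {A' : ℝ → ℝ} (hA' : Monotone A') : ∀ᵐ x, ContinuousAt (dE A') x := by
  have h1 : ∀ᵐ x : ℝ, ContinuousAt A' x := by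
    filter_upwards [hA'.countable_not_continuousAt.ae_notMem volume] with x hx
    by_contra hc
    exact hx hc
  have h2 : ∀ᵐ x : ℝ, ContinuousAt AG x := by
    have h0 : ∀ᵐ x : ℝ, x ≠ 0 := by
      rw [ae_iff]
      simp
    filter_upwards [h0] with x hx
    rcases lt_or_gt_of_ne hx with h | h
    · have : AG =ᶠ[𝓝 x] fun _ => 0 := by
        filter_upwards [gt_mem_nhds h] with z hz
        unfold AG
        rw [if_pos hz]
      exact continuousAt_const.congr this.symm
    · have : AG =ᶠ[𝓝 x] fun x => 1 + 2 * gp x := by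
        filter_upwards [lt_mem_nhds h] with z hz
        unfold AG
        rw [if_neg (by linarith)]
      exact (continuousAt_const.add
        (continuousAt_const.mul gp_cont.continuousAt)).congr this.symm
  have hq := (Measure.measurePreserving_neg (volume : Measure ℝ)).quasiMeasurePreserving
  have h3 := hq.ae h1
  have h4 := hq.ae h2
  filter_upwards [h1, h2, h3, h4] with x a1 a2 a3 a4
  have c3 : ContinuousAt (fun x : ℝ => A' (-x)) x :=
    ContinuousAt.comp (f := fun x : ℝ => -x) (g := A') a3 continuous_neg.continuousAt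
  have c4 : ContinuousAt (fun x : ℝ => AG (-x)) x :=
    ContinuousAt.comp (f := fun x : ℝ => -x) (g := AG) a4 continuous_neg.continuousAt
  exact (a1.sub a2).sub (c3.sub c4)

/-- translating a long system of intervals -/
lemma shift_ns {a r : ℕ → ℝ} (hr : ∀ k, 0 < r k) (hra : ∀ k, r k ≤ a k)
    (har : ∀ k, a k + r k ≤ a (k + 1)) (hns : ¬ Summable fun k => (r k / a k) ^ 2) {h : ℝ}
    (hh : 0 ≤ h) : ¬ Summable fun k => (r k / (a k + h)) ^ 2 := by
  have ha : ∀ k, 0 < a k := fun k => (hr k).trans_le (hra k)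
  have hmono : Monotone a := monotone_nat_of_le_succ fun k => by linarith [har k, hr k]
  intro hs
  apply hns
  refine Summable.of_nonneg_of_le (fun k => sq_nonneg _) (fun k => ?_)
    (hs.mul_left ((1 + h / a 0) ^ 2))
  have h0 := ha 0
  have hk := ha k
  have h1 : a k + h ≤ (1 + h / a 0) * a k := by
    have : h / a 0 * a 0 ≤ h / a 0 * a k :=
      mul_le_mul_of_nonneg_left (hmono (Nat.zero_le k)) (by positivity)
    rw [div_mul_cancel₀ _ h0.ne'] at this
    linarith
  have h2 : r k / a k ≤ (1 + h / a 0) * (r k / (a k + h)) := by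
    rw [← mul_div_assoc, div_le_div_iff₀ hk (by positivity)]
    have := mul_le_mul_of_nonneg_left h1 (hr k).le
    linarith
  rw [← mul_pow]
  exact pow_le_pow_left₀ (div_nonneg (hr k).le hk.le) h2 2

/-- one sided exponentially small error on a long system of intervals forces periodicity -/
lemma periodic_sparse {A' : ℝ → ℝ} {C0 κ : ℝ} (hκ : 0 < κ) (hA' : Monotone A')
    (hneg : ∀ y, y < 0 → A' y = 0) (hb : ∀ y, |A' y| ≤ C0 * (1 + y ^ 2))
    (hm : ∀ K, TK κ K → ∀ h, 0 < h →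
      ∫ y, A' y * (ct K (y + h) - ct K (y - h)) = ∫ y, AG y * (ct K (y + h) - ct K (y - h)))
    {ℓ s C δ : ℝ} (hℓ : 0 < ℓ) (hs : s = 1 ∨ s = -1) (hC : 0 ≤ C) (hδ : 0 < δ)
    {a r : ℕ → ℝ} (hr : ∀ k, 0 < r k) (hra : ∀ k, r k ≤ a k)
    (har : ∀ k, a k + r k ≤ a (k + 1)) (hns : ¬ Summable fun k => (r k / a k) ^ 2)
    (hyp : ∀ k, ∀ x ∈ Set.Icc (a k) (a k + r k), ContinuousAt A' x →
      -(C * Real.exp (-(δ * r k))) ≤ s * (A' (x + ℓ) - A' x - 2 * (gp (x + ℓ) - gp x))) :
    ∀ᵐ x, dE A' (x + ℓ) = dE A' x := by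
  obtain ⟨h, hh⟩ : ∃ h : ℝ, h = ℓ / 2 := ⟨_, rfl⟩
  have hh0 : 0 < h := by rw [hh]; positivity
  have ha : ∀ k, 0 < a k := fun k => (hr k).trans_le (hra k)
  have hEm := dE_meas hA'
  have hEb := dE_bound hb
  have hC0 : 0 ≤ C0 := by
    have := (abs_nonneg _).trans (hb 0)
    simpa using this
  obtain ⟨H, hH⟩ : ∃ H : ℝ → ℝ, ∀ y, H y = s * (dE A' (y + h) - dE A' (y - h)) :=
    ⟨_, fun _ => rfl⟩
  have hH' : H = fun y => s * (dE A' (y + h) - dE A' (y - h)) := funext hH
  have hs1 : |s| = 1 := by rcases hs with rfl | rfl <;> simp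
  have hHm : Measurable H := by
    rw [hH']
    exact measurable_const.mul ((hEm.comp (by fun_prop)).sub (hEm.comp (by fun_prop)))
  have hHe : ∀ y, H (-y) = H y := by
    intro y
    rw [hH, hH]
    have a1 : dE A' (-y + h) = -dE A' (y - h) := by
      rw [← dE_odd]
      congr 1
      ring
    have a2 : dE A' (-y - h) = -dE A' (y + h) := by
      rw [← dE_odd]
      congr 1
      ring
    rw [a1, a2]
    ring
  obtain ⟨B, hB⟩ : ∃ B : ℝ, B = (2 * C0 + 4) * (4 * (1 + h ^ 2)) := ⟨_, rfl⟩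
  have hHb : ∀ y, |H y| ≤ B * (1 + y ^ 2) := by
    intro y
    rw [hH, abs_mul, hs1, one_mul]
    refine (abs_sub _ _).trans ?_
    have h1 := hEb (y + h)
    have h2 := hEb (y - h)
    have h3 : 1 + (y + h) ^ 2 ≤ 2 * (1 + h ^ 2) * (1 + y ^ 2) := by
      nlinarith [sq_nonneg (y - h), sq_nonneg (y * h), sq_nonneg y, sq_nonneg h]
    have h4 : 1 + (y - h) ^ 2 ≤ 2 * (1 + h ^ 2) * (1 + y ^ 2) := by
      nlinarith [sq_nonneg (y + h), sq_nonneg (y * h), sq_nonneg y, sq_nonneg h]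
    have h5 : (2 * C0 + 4) * (1 + (y + h) ^ 2) ≤ (2 * C0 + 4) * (2 * (1 + h ^ 2) * (1 + y ^ 2)) :=
      mul_le_mul_of_nonneg_left h3 (by positivity)
    have h6 : (2 * C0 + 4) * (1 + (y - h) ^ 2) ≤ (2 * C0 + 4) * (2 * (1 + h ^ 2) * (1 + y ^ 2)) :=
      mul_le_mul_of_nonneg_left h4 (by positivity)
    rw [hB]
    linarith
  have hcA : ∀ᵐ x : ℝ, ContinuousAt A' x := by
    filter_upwards [hA'.countable_not_continuousAt.ae_notMem volume] with x hx
    by_contra hc
    exact hx hc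
  have hcE := dE_cont hA'
  have q1 := (measurePreserving_add_right (volume : Measure ℝ) h).quasiMeasurePreserving
  have q2 := (measurePreserving_sub_right (volume : Measure ℝ) h).quasiMeasurePreserving
  have hcH : ∀ᵐ x, ContinuousAt H x := by
    filter_upwards [q1.ae hcE, q2.ae hcE] with x a1 a2
    have c1 : ContinuousAt (fun y : ℝ => dE A' (y + h)) x :=
      ContinuousAt.comp (f := fun x : ℝ => x + h) (g := dE A') a1
        (continuous_add_const h).continuousAt
    have c2 : ContinuousAt (fun y : ℝ => dE A' (y - h)) x :=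
      ContinuousAt.comp (f := fun x : ℝ => x - h) (g := dE A') a2
        (continuous_sub_right h).continuousAt
    rw [hH']
    exact continuousAt_const.mul (c1.sub c2)
  have hz : ∀ K, TK κ K → ∫ y, H y * ct K y = 0 := by
    intro K hK
    have h1 := annih hK hA' hb h (hm K hK h hh0)
    have h2 : ∫ y, H y * ct K y = s * ∫ y, (dE A' (y + h) - dE A' (y - h)) * ct K y := by
      rw [← integral_const_mul]
      refine integral_congr_ae (Eventually.of_forall fun y => ?_)
      show H y * ct K y = s * ((dE A' (y + h) - dE A' (y - h)) * ct K y)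
      rw [hH]
      ring
    rw [h2, h1, mul_zero]
  have hlow : ∀ k, ∀ᵐ y, y ∈ Set.Icc (a k + h) (a k + h + r k) →
      -(C * Real.exp (-(δ * r k))) ≤ H y := by
    intro k
    filter_upwards [q2.ae hcA] with y hy hyk
    have hk := ha k
    have h1 := hyp k (y - h) ⟨by linarith [hyk.1], by linarith [hyk.2]⟩ hy
    have e1 : y - h + ℓ = y + h := by rw [hh]; ring
    rw [e1] at h1
    have e2 : H y = s * (A' (y + h) - A' (y - h) - 2 * (gp (y + h) - gp (y - h))) := by
      rw [hH]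
      rw [dE_pos hneg (by linarith [hyk.1] : 0 < y + h),
        dE_pos hneg (by linarith [hyk.1] : 0 < y - h)]
      unfold AG
      rw [if_neg (by linarith [hyk.1]), if_neg (by linarith [hyk.1])]
      ring
    rw [e2]
    exact h1
  have hfin := high_sparse hκ hHm hHe hHb hcH hC hδ hr (a := fun k => a k + h)
    (fun k => by
      have := hra k
      show r k ≤ a k + h
      linarith)
    (fun k => by
      have := har k
      show a k + h + r k ≤ a (k + 1) + h
      linarith) (shift_ns hr hra har hns hh0.le) hlow hz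
  have h1 : ∀ᵐ y, dE A' (y + h) = dE A' (y - h) := by
    filter_upwards [hfin] with y hy
    have hs0 : s ≠ 0 := by rcases hs with rfl | rfl <;> norm_num
    rw [hH] at hy
    have := (mul_eq_zero.1 hy).resolve_left hs0
    linarith
  have h2 := q1.ae h1
  filter_upwards [h2] with x hx
  have e1 : x + h + h = x + ℓ := by rw [hh]; ring
  have e2 : x + h - h = x := by ring
  rw [e1, e2] at hx
  exact hx

/-- the one sided condition for the limit at a point -/
lemma cond_pt {A : ℝ → ℝ → ℝ} {T0 : ℝ} {W : ℝ → ℝ → ℝ → ℝ}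
    (hW1 : ∀ T, T0 ≤ T → ∀ a ℓ, 0 < a → 0 < ℓ → A T (a + ℓ) - A T a ≤ W T a ℓ)
    (hW2 : ∀ T, T0 ≤ T → ∀ a ℓ η, 0 < a → 0 < ℓ → 0 < η → W T a ℓ ≤ A T (a + ℓ) - A T (a - η))
    {u : Filter ℝ} [NeBot u] (hu : u ≤ atTop) {A' : ℝ → ℝ}
    (hlim : ∀ y, Tendsto (fun T => A T y) u (𝓝 (A' y))) {ℓ s a e : ℝ} (hℓ : 0 < ℓ)
    (hs : s = 1 ∨ s = -1) (hapos : 0 < a)
    (hyp : ∀ ε, 0 < ε → ∀ᶠ T in u,
      -e - ε ≤ s * (W T a ℓ - 2 * (gp (a + ℓ) - gp a))) (hca : ContinuousAt A' a) :
      -e ≤ s * (A' (a + ℓ) - A' a - 2 * (gp (a + ℓ) - gp a)) := by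
  have hT : ∀ᶠ T in u, T0 ≤ T := hu (eventually_ge_atTop _)
  rcases hs with rfl | rfl
  · refine le_of_forall_pos_le_add fun ε hε => ?_
    have h1 : ∀ᶠ z in 𝓝 a, A' a - ε / 2 < A' z := hca.eventually_const_lt (by linarith)
    obtain ⟨δ, hδ, h2⟩ := Metric.eventually_nhds_iff.1 h1
    have h3 := h2 (show dist (a - δ / 2) a < δ by rw [Real.dist_eq, abs_lt]; constructor <;> linarith)
    have h4 : ∀ᶠ T in u, -e - ε / 2 ≤
        A T (a + ℓ) - A T (a - δ / 2) - 2 * (gp (a + ℓ) - gp a) := by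
      filter_upwards [hT, hyp (ε / 2) (by positivity)] with T hT1 hT2
      have := hW2 T hT1 a ℓ (δ / 2) hapos hℓ (by positivity)
      linarith
    have h5 : Tendsto (fun T => A T (a + ℓ) - A T (a - δ / 2) - 2 * (gp (a + ℓ) - gp a)) u
        (𝓝 (A' (a + ℓ) - A' (a - δ / 2) - 2 * (gp (a + ℓ) - gp a))) :=
      ((hlim _).sub (hlim _)).sub_const _
    have h6 := ge_of_tendsto h5 h4
    linarith
  · refine le_of_forall_pos_le_add fun ε hε => ?_
    have h4 : ∀ᶠ T in u, -e - ε ≤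
        -1 * (A T (a + ℓ) - A T a - 2 * (gp (a + ℓ) - gp a)) := by
      filter_upwards [hT, hyp ε hε] with T hT1 hT2
      have := hW1 T hT1 a ℓ hapos hℓ
      linarith
    have h5 : Tendsto (fun T => -1 * (A T (a + ℓ) - A T a - 2 * (gp (a + ℓ) - gp a))) u
        (𝓝 (-1 * (A' (a + ℓ) - A' a - 2 * (gp (a + ℓ) - gp a)))) :=
      (((hlim _).sub (hlim _)).sub_const _).const_mul _
    have h6 := ge_of_tendsto h5 h4
    linarith

/-- one sided exponentially small error on a long system of intervals, for windows of length `ℓ` -/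
def SpN (l : Filter ℝ) (ℓ s : ℝ) : Prop := ∃ (a r : ℕ → ℝ) (C δ : ℝ), 0 < C ∧ 0 < δ ∧
  (∀ k, 0 < r k) ∧ (∀ k, r k ≤ a k) ∧ (∀ k, a k + r k ≤ a (k + 1)) ∧
  (¬ Summable fun k => (r k / a k) ^ 2) ∧
  ∀ k, ∀ x ∈ Set.Icc (a k) (a k + r k), ∀ ε, 0 < ε → ∀ᶠ T in l,
    s * (Nr T x (x + ℓ) - (gp (x + ℓ) - gp x)) ≤ C * Real.exp (-(δ * r k)) + ε

lemma neg_sign {s : ℝ} (hs : s = 1 ∨ s = -1) : -s = 1 ∨ -s = -1 := by
  rcases hs with rfl | rfl
  · right; rfl
  · left; norm_num

/-- periodicity of the limits -/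
lemma per_of_sparse {l : Filter ℝ} {ℓ s : ℝ} (hℓ : 0 < ℓ)
    (hs : s = 1 ∨ s = -1) (h : SpN l ℓ s) {g : Ultrafilter ℝ} (hg : (g : Filter ℝ) ≤ l)
    (hgt : (g : Filter ℝ) ≤ atTop) {A' : ℝ → ℝ} {C0 : ℝ} (hA' : Monotone A')
    (hneg : ∀ y, y < 0 → A' y = 0) (hb : ∀ y, |A' y| ≤ C0 * (1 + y ^ 2))
    (hlim : ∀ y, Tendsto (fun T => Aa T y) (g : Filter ℝ) (𝓝 (A' y)))
    (hm : ∀ K, TK (1 / 2) K → ∀ h, 0 < h →
      ∫ y, A' y * (ct K (y + h) - ct K (y - h)) = ∫ y, AG y * (ct K (y + h) - ct K (y - h))) :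
    ∀ᵐ x, dE A' (x + ℓ) = dE A' x := by
  obtain ⟨a, r, C, δ, hC, hδ, hr, hra, har, hns, hyp⟩ := h
  have ha : ∀ k, 0 < a k := fun k => (hr k).trans_le (hra k)
  refine periodic_sparse (κ := 1 / 2) (by norm_num) hA' hneg hb hm hℓ (neg_sign hs)
    (C := 2 * C) (by positivity) hδ hr hra har hns fun k x hx hxc => ?_
  have hxpos : 0 < x := (ha k).trans_le hx.1
  refine cond_pt (T0 := 2) (W := Ww) (fun T hT a ℓ ha hℓ => Ww_lower (by linarith))
      (fun T hT a ℓ η ha hℓ hη => Ww_upper (by linarith) hη hℓ) hgt hlim hℓ (neg_sign hs) hxpos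
      (fun ε hε => ?_) hxc
  filter_upwards [hg (hyp k x hx (ε / 2) (by positivity))] with T hT
  rw [Ww_eq hxpos]
  nlinarith

theorem sparse_Aa (RH : RiemannHypothesis) {l : Filter ℝ} (hl : l ≤ atTop) {S : Set ℝ}
    (hS0 : ∀ ℓ ∈ S, 0 < ℓ) (hS : Dense ((AddSubgroup.closure S : AddSubgroup ℝ) : Set ℝ))
    (h : ∀ ℓ ∈ S, ∃ s : ℝ, (s = 1 ∨ s = -1) ∧ SpN l ℓ s) (x : ℝ) :
    Tendsto (fun T => Aa T x) l (𝓝 (AG x)) := by
  rw [tendsto_iff_ultrafilter]
  intro g hg
  have hgt : (g : Filter ℝ) ≤ atTop := hg.trans hl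
  obtain ⟨A', C0, hA', hneg, hb, h0, hlim, hm⟩ := exists_limit RH g hgt
  have p1 : ∀ ℓ ∈ S, ∀ᵐ x, dE A' (x + ℓ) = dE A' x := by
    intro ℓ hℓ
    obtain ⟨s, hs, h1⟩ := h ℓ hℓ
    exact per_of_sparse (hS0 ℓ hℓ) hs h1 hg hgt hA' hneg hb hlim hm
  have := limit_eq_dense hA' hneg hb h0 hS p1 x
  rw [← this]
  exact hlim x

/-- one length: the counting function -/
lemma single_sparse (RH : RiemannHypothesis) {l : Filter ℝ} (hl : l ≤ atTop) {ℓ s : ℝ}
    (hℓ : 0 < ℓ) (hs : s = 1 ∨ s = -1) (h : SpN l ℓ s) (x : ℝ) {ε : ℝ}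
    (hε : 0 < ε) : ∀ᶠ T in l, |Aa T x - AG x| ≤ Me ℓ + ε := by
  have key : {T | |Aa T x - AG x| ≤ Me ℓ + ε} ∈ l := by
    rw [Filter.mem_iff_ultrafilter]
    intro g hg
    have hgt : (g : Filter ℝ) ≤ atTop := hg.trans hl
    obtain ⟨A', C0, hA', hneg, hb, h0, hlim, hm⟩ := exists_limit RH g hgt
    have p1 := per_of_sparse hℓ hs h hg hgt hA' hneg hb hlim hm
    have h1 := single_all hA' hneg h0 hℓ p1 x
    have h2 : Tendsto (fun T => |Aa T x - AG x|) (g : Filter ℝ) (𝓝 |A' x - AG x|) :=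
      ((hlim x).sub_const _).abs
    have h3 : ∀ᶠ T in (g : Filter ℝ), |Aa T x - AG x| < Me ℓ + ε :=
      (tendsto_order.1 h2).2 _ (by linarith)
    exact h3.mono fun T hT => le_of_lt hT
  exact key

end Pool.Agent.NH10.BM
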