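import Pool.Agent.NH10.BM.Cauchy

/-! # Local smallness from one-sided bounds -/

set_option autoImplicit false

open Complex Filter Topology Set MeasureTheory Bornology

namespace Pool.Agent.NH10.BM

variable {G : ℝ → ℝ}

/-- multipliers which leave a spectral gap -/
structure GP (G : ℝ → ℝ) (σ : ℝ) (f : ℝ → ℂ) : Prop where
  cont : Continuous f
  bdd : ∀ x, ‖f x‖ ≤ 1
  gap : ∀ ξ : ℝ, |ξ| ≤ σ → ∫ x, (G x : ℂ) * f x * cexp (I * (ξ * x)) = 0

lemma GP_one {σ : ℝ} (h : Gap G σ) : GP G σ fun _ => 1 where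
  cont := continuous_const
  bdd := fun x => by simp
  gap := fun ξ hξ => by simpa using h ξ hξ

lemma sinc_int {η : ℝ} (hη : 0 < η) (y : ℝ) :
    ∫ v in (-η)..η, cexp (I * (v * y)) = ((2 * η * Real.sinc (η * y) : ℝ) : ℂ) := by
  rcases eq_or_ne y 0 with hy | hy
  · rw [hy]
    simp
    ring
  · have h1 := intervalIntegral.integral_comp_mul_right (fun t : ℝ => cexp (t * I)) (a := -η)
      (b := η) hy
    have h2 : ∀ v : ℝ, cexp (((v * y : ℝ) : ℂ) * I) = cexp (I * (v * y)) := by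
      intro v
      congr 1
      push_cast
      ring
    simp_rw [h2] at h1
    rw [h1, show -η * y = -(η * y) by ring, integral_exp_mul_I_eq_sinc, Complex.real_smul]
    have hyc : (y : ℂ) ≠ 0 := by exact_mod_cast hy
    push_cast
    field_simp

lemma GP_mul (hG : Integrable G) {σ η : ℝ} {f : ℝ → ℂ} (h : GP G σ f) (hη : 0 < η) (x₀ : ℝ) :
    GP G (σ - η) fun x => f x * (Real.sinc (η * (x - x₀)) : ℂ) where
  cont := by
    have := h.cont
    have := Real.continuous_sinc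
    fun_prop
  bdd := by
    intro x
    rw [norm_mul, Complex.norm_real, Real.norm_eq_abs]
    exact mul_le_one₀ (h.bdd x) (abs_nonneg _) (Real.abs_sinc_le_one _)
  gap := by
    intro ξ hξ
    have hfc := h.cont
    have e1 : ∀ x : ℝ, (G x : ℂ) * (f x * (Real.sinc (η * (x - x₀)) : ℂ)) * cexp (I * (ξ * x)) =
        (1 / (2 * η) : ℂ) * ∫ v in (-η)..η, (G x : ℂ) * f x * cexp (I * (ξ * x)) *
          cexp (I * (v * (x - x₀ : ℝ))) := by
      intro x
      rw [intervalIntegral.integral_const_mul, sinc_int hη]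
      push_cast
      have : (η : ℂ) ≠ 0 := by exact_mod_cast hη.ne'
      field_simp
    simp_rw [e1]
    rw [integral_const_mul]
    have hle : -η ≤ η := by linarith
    have e2 : ∫ x, ∫ v in (-η)..η, (G x : ℂ) * f x * cexp (I * (ξ * x)) *
          cexp (I * (v * (x - x₀ : ℝ))) = ∫ v in (-η)..η, ∫ x, (G x : ℂ) * f x *
          cexp (I * (ξ * x)) * cexp (I * (v * (x - x₀ : ℝ))) := by
      simp only [intervalIntegral.integral_of_le hle]
      refine integral_integral_swap ?_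
      have i1 : Integrable (fun p : ℝ × ℝ => |G p.1| * (1 : ℝ))
          (volume.prod (volume.restrict (Set.Ioc (-η) η))) :=
        hG.abs.mul_prod (integrable_const (1 : ℝ))
      refine i1.mono' ?_ (ae_of_all _ fun p => ?_)
      · have g1 : AEStronglyMeasurable (fun p : ℝ × ℝ => (G p.1 : ℂ))
            (volume.prod (volume.restrict (Set.Ioc (-η) η))) :=
          hG.ofReal.aestronglyMeasurable.comp_fst
        refine ((g1.mul ?_).mul ?_).mul ?_
        all_goals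
          apply Continuous.aestronglyMeasurable
          fun_prop
      · show ‖(G p.1 : ℂ) * f p.1 * cexp (I * (ξ * p.1)) * cexp (I * (p.2 * (p.1 - x₀ : ℝ)))‖ ≤ _
        rw [norm_mul, norm_mul, norm_mul, Complex.norm_real, Real.norm_eq_abs]
        have n1 : ‖cexp (I * (ξ * p.1))‖ = 1 := by
          have : I * ((ξ : ℂ) * p.1) = ((ξ * p.1 : ℝ) : ℂ) * I := by push_cast; ring
          rw [this, Complex.norm_exp_ofReal_mul_I]
        have n2 : ‖cexp (I * (p.2 * (p.1 - x₀ : ℝ)))‖ = 1 := by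
          have : I * ((p.2 : ℂ) * (p.1 - x₀ : ℝ)) = ((p.2 * (p.1 - x₀) : ℝ) : ℂ) * I := by
            push_cast; ring
          rw [this, Complex.norm_exp_ofReal_mul_I]
        rw [n1, n2, mul_one, mul_one]
        exact mul_le_mul_of_nonneg_left (h.bdd _) (abs_nonneg _)
    rw [e2]
    have e3 : ∀ v ∈ Set.uIcc (-η) η, ∫ x, (G x : ℂ) * f x *
          cexp (I * (ξ * x)) * cexp (I * (v * (x - x₀ : ℝ))) = 0 := by
      intro v hv
      rw [Set.uIcc_of_le hle] at hv
      have h2 : |ξ + v| ≤ σ := by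
        refine (abs_add_le _ _).trans ?_
        have := abs_le.2 hv
        linarith
      have h3 := h.gap (ξ + v) h2
      have e4 : ∀ x : ℝ, (G x : ℂ) * f x * cexp (I * (ξ * x)) * cexp (I * (v * (x - x₀ : ℝ))) =
          cexp (-(I * (v * x₀))) * ((G x : ℂ) * f x * cexp (I * (((ξ + v : ℝ) : ℂ) * x))) := by
        intro x
        have : cexp (I * (ξ * x)) * cexp (I * (v * (x - x₀ : ℝ))) =
            cexp (-(I * (v * x₀))) * cexp (I * (((ξ + v : ℝ) : ℂ) * x)) := by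
          rw [← Complex.exp_add, ← Complex.exp_add]
          congr 1
          push_cast
          ring
        rw [mul_assoc ((G x : ℂ) * f x), this]
        ring
      simp_rw [e4]
      rw [integral_const_mul, h3, mul_zero]
    rw [intervalIntegral.integral_congr e3]
    simp

lemma GP_pow (hG : Integrable G) {σ η : ℝ} (h : Gap G σ) (hη : 0 < η) (x₀ : ℝ) (n : ℕ) :
    GP G (σ - n * η) fun x => ((Real.sinc (η * (x - x₀)) ^ n : ℝ) : ℂ) := by
  induction n with
  | zero => simpa using GP_one h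
  | succ n ih =>
    have h1 := GP_mul hG ih hη x₀
    have e1 : σ - n * η - η = σ - ((n + 1 : ℕ) : ℝ) * η := by push_cast; ring
    have e2 : (fun x => ((Real.sinc (η * (x - x₀)) ^ n : ℝ) : ℂ) *
        (Real.sinc (η * (x - x₀)) : ℂ)) =
        fun x => ((Real.sinc (η * (x - x₀)) ^ (n + 1) : ℝ) : ℂ) := by
      funext x
      rw [pow_succ]
      push_cast
      rfl
    rw [e1, e2] at h1
    exact h1

/-- the weighted integrals vanish -/
lemma int_pow (hG : Integrable G) {σ : ℝ} (hσ : 0 < σ) (h : Gap G σ) (x₀ : ℝ) {n : ℕ} (hn : 1 ≤ n) :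
    ∫ x, G x * Real.sinc (σ / (2 * n) * (x - x₀)) ^ (2 * n) = 0 := by
  have hn0 : (0 : ℝ) < n := by exact_mod_cast hn
  have h1 := (GP_pow hG h (η := σ / (2 * n)) (by positivity) x₀ (2 * n)).gap 0 (by
    rw [abs_zero]
    push_cast
    have : (2 * (n : ℝ)) * (σ / (2 * n)) = σ := by field_simp
    rw [this]
    simp)
  have h2 : ∀ x : ℝ, (G x : ℂ) * ((Real.sinc (σ / (2 * n) * (x - x₀)) ^ (2 * n) : ℝ) : ℂ) *
      cexp (I * (((0 : ℝ) : ℂ) * x)) =
      ((G x * Real.sinc (σ / (2 * n) * (x - x₀)) ^ (2 * n) : ℝ) : ℂ) := by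
    intro x
    simp
  simp_rw [h2] at h1
  rw [integral_complex_ofReal] at h1
  exact_mod_cast h1

lemma sinc_low {y : ℝ} (hy : |y| ≤ 1) : 1 - y ^ 2 / 4 ≤ Real.sinc y := by
  have key : ∀ y : ℝ, 0 < y → y ≤ 1 → 1 - y ^ 2 / 4 ≤ Real.sinc y := by
    intro y hy0 _
    rw [Real.sinc_of_ne_zero hy0.ne', le_div_iff₀ hy0]
    have h1 := Real.sin_gt_sub_cube hy0
    have h2 : 0 < y ^ 3 := by positivity
    have h3 : (1 - y ^ 2 / 4) * y = y - y ^ 3 / 4 := by ring
    rw [h3]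
    linarith
  rcases lt_trichotomy y 0 with h | h | h
  · have h1 := key (-y) (by linarith) (by rw [abs_of_neg h] at hy; exact hy)
    rw [Real.sinc_neg, neg_sq] at h1
    exact h1
  · rw [h, Real.sinc_zero]; norm_num
  · exact key y h (by rw [abs_of_pos h] at hy; exact hy)

lemma sinc_near {σ x : ℝ} (hσ : 0 < σ) (hσ1 : σ ≤ 1) {n : ℕ} (hn : 1 ≤ n) (hx : |x| ≤ 1) :
    1 / 2 ≤ Real.sinc (σ / (2 * n) * x) ^ (2 * n) := by
  have hn0 : (1 : ℝ) ≤ n := by exact_mod_cast hn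
  obtain ⟨y, hy⟩ : ∃ y : ℝ, y = σ / (2 * n) * x := ⟨_, rfl⟩
  rw [← hy]
  have h1 : |y| ≤ 1 / (2 * n) := by
    rw [hy, abs_mul, abs_of_pos (by positivity)]
    calc σ / (2 * n) * |x| ≤ 1 / (2 * n) * 1 := by gcongr
      _ = _ := mul_one _
  have h2 : 1 / (2 * (n : ℝ)) ≤ 1 / 2 := by
    apply one_div_le_one_div_of_le (by norm_num)
    linarith
  have h3 := sinc_low (y := y) (by linarith)
  have h4 : y ^ 2 ≤ (1 / (2 * (n : ℝ))) ^ 2 := by
    rw [← sq_abs]
    exact pow_le_pow_left₀ (abs_nonneg _) h1 2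
  have h5 : 0 ≤ 1 - y ^ 2 / 4 := by
    have : (1 / (2 * (n : ℝ))) ^ 2 ≤ 1 := by
      apply pow_le_one₀ (by positivity)
      linarith
    linarith
  have h6 : (1 - y ^ 2 / 4) ^ (2 * n) ≤ Real.sinc y ^ (2 * n) := pow_le_pow_left₀ h5 h3 _
  have h7 := one_add_mul_le_pow (a := -(y ^ 2 / 4)) (by linarith) (2 * n)
  have e7 : 1 + -(y ^ 2 / 4) = 1 - y ^ 2 / 4 := by ring
  rw [e7] at h7
  refine le_trans ?_ (h7.trans h6)
  push_cast
  have h8 : 2 * (n : ℝ) * (y ^ 2 / 4) ≤ 2 * (n : ℝ) * ((1 / (2 * (n : ℝ))) ^ 2 / 4) := by gcongr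
  have h9 : 2 * (n : ℝ) * ((1 / (2 * (n : ℝ))) ^ 2 / 4) = 1 / (8 * n) := by
    field_simp
    norm_num
  have h10 : 1 / (8 * (n : ℝ)) ≤ 1 / 2 := by
    apply one_div_le_one_div_of_le (by norm_num)
    linarith
  linarith

lemma sinc_far {σ q x : ℝ} (hσ : 0 < σ) (hq : 0 < q) {n : ℕ} (hn : 1 ≤ n) (hnq : 4 * n ≤ σ * q)
    (hx : q ≤ |x|) : Real.sinc (σ / (2 * n) * x) ^ (2 * n) ≤ (1 / 4) ^ n := by
  have hn0 : (1 : ℝ) ≤ n := by exact_mod_cast hn
  have hx0 : x ≠ 0 := by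
    intro h
    rw [h, abs_zero] at hx
    linarith
  have hy0 : σ / (2 * n) * x ≠ 0 := mul_ne_zero (by positivity) hx0
  have h1 : |Real.sinc (σ / (2 * n) * x)| ≤ 1 / 2 := by
    rw [Real.sinc_of_ne_zero hy0, abs_div]
    have h2 : 2 ≤ |σ / (2 * n) * x| := by
      rw [abs_mul, abs_of_pos (by positivity)]
      have : 2 ≤ σ / (2 * n) * q := by
        rw [div_mul_eq_mul_div, le_div_iff₀ (by positivity)]
        linarith
      exact this.trans (by gcongr)
    exact div_le_div₀ (by norm_num) (Real.abs_sin_le_one _) (by norm_num) h2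
  have h2 : |Real.sinc (σ / (2 * n) * x)| ^ (2 * n) ≤ (1 / 2) ^ (2 * n) :=
    pow_le_pow_left₀ (abs_nonneg _) h1 _
  have h3 : |Real.sinc (σ / (2 * n) * x)| ^ (2 * n) = Real.sinc (σ / (2 * n) * x) ^ (2 * n) := by
    rw [pow_mul, sq_abs, ← pow_mul]
  rw [h3] at h2
  refine h2.trans (le_of_eq ?_)
  rw [pow_mul]
  norm_num

/-- smallness near a point -/
lemma loc_small (hG : Integrable G) {w : ℝ → ℝ} (hw : Integrable w) (hw0 : ∀ x, 0 ≤ w x) {σ : ℝ}
    (hσ : 0 < σ) (hσ1 : σ ≤ 1) (h : Gap G σ) {x₀ q e : ℝ} (hq : 0 < q) (he : 0 ≤ e) {n : ℕ}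
    (hn : 1 ≤ n) (hnq : 4 * n ≤ σ * q)
    (hl : ∀ᵐ x, |x - x₀| ≤ q → -(e * w x) ≤ G x) :
    ∫ x in Set.Ioc (x₀ - 1) (x₀ + 1), |G x| ≤
      4 * (e * (∫ x, w x) + (1 / 4) ^ n * ∫ x, |G x|) := by
  obtain ⟨f, hf⟩ : ∃ f : ℝ → ℝ, ∀ x, f x = Real.sinc (σ / (2 * n) * (x - x₀)) ^ (2 * n) :=
    ⟨_, fun _ => rfl⟩
  have hf0 : ∀ x, 0 ≤ f x := fun x => by rw [hf, pow_mul]; positivity
  have hf1 : ∀ x, f x ≤ 1 := fun x => by
    rw [hf, pow_mul]
    refine pow_le_one₀ (by positivity) ?_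
    have := Real.abs_sinc_le_one (σ / (2 * n) * (x - x₀))
    rw [← sq_abs]
    exact pow_le_one₀ (abs_nonneg _) this
  have hfc : Continuous f := by
    have h1 : f = fun x => Real.sinc (σ / (2 * n) * (x - x₀)) ^ (2 * n) := funext hf
    rw [h1]
    have := Real.continuous_sinc
    fun_prop
  have hfb : ∀ᵐ x, ‖f x‖ ≤ 1 := ae_of_all _ fun x => by
    rw [Real.norm_eq_abs, abs_of_nonneg (hf0 x)]; exact hf1 x
  have hz : ∫ x, G x * f x = 0 := by
    have := int_pow hG hσ h x₀ hn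
    simp_rw [← hf] at this
    exact this
  have i1 : Integrable fun x => G x * f x :=
    hG.mul_bdd (c := 1) hfc.aestronglyMeasurable hfb
  have i2 : Integrable fun x => |G x| * f x :=
    hG.abs.mul_bdd (c := 1) hfc.aestronglyMeasurable hfb
  have i3 : Integrable fun x => e * w x + (1 / 4) ^ n * |G x| :=
    (hw.const_mul _).add (hG.abs.const_mul _)
  -- the whole integral
  have k1 : ∫ x, |G x| * f x ≤ 2 * (e * (∫ x, w x) + (1 / 4) ^ n * ∫ x, |G x|) := by
    have e1 : ∫ x, |G x| * f x = ∫ x, (|G x| * f x - G x * f x) := by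
      rw [integral_sub i2 i1, hz, sub_zero]
    rw [e1]
    have e2 : 2 * (e * (∫ x, w x) + (1 / 4) ^ n * ∫ x, |G x|) =
        ∫ x, 2 * (e * w x + (1 / 4) ^ n * |G x|) := by
      rw [integral_const_mul, integral_add (hw.const_mul _) (hG.abs.const_mul _),
        integral_const_mul, integral_const_mul]
    rw [e2]
    refine integral_mono_ae (i2.sub i1) (i3.const_mul 2) ?_
    filter_upwards [hl] with x hx
    have p1 : 0 ≤ e * w x := mul_nonneg he (hw0 x)
    have p2 : 0 ≤ (1 / 4 : ℝ) ^ n * |G x| := by positivity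
    have p3 : |G x| * f x - G x * f x = (|G x| - G x) * f x := by ring
    show |G x| * f x - G x * f x ≤ _
    rw [p3]
    rcases le_or_gt |x - x₀| q with hc | hc
    · have h1 := hx hc
      have h2 : |G x| - G x ≤ 2 * (e * w x) := by
        rcases abs_cases (G x) with ⟨a1, a2⟩ | ⟨a1, a2⟩
        · rw [a1]; linarith
        · rw [a1]; linarith
      have h3 : 0 ≤ |G x| - G x := by linarith [le_abs_self (G x)]
      calc (|G x| - G x) * f x ≤ (|G x| - G x) * 1 := by gcongr; exact hf1 x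
        _ ≤ _ := by linarith
    · have h1 : f x ≤ (1 / 4) ^ n := by
        rw [hf]
        exact sinc_far hσ hq hn hnq hc.le
      have h2 : |G x| - G x ≤ 2 * |G x| := by linarith [neg_abs_le (G x)]
      have h3 : 0 ≤ |G x| - G x := by linarith [le_abs_self (G x)]
      calc (|G x| - G x) * f x ≤ (2 * |G x|) * (1 / 4) ^ n := by
            gcongr
            exact hf0 x
        _ ≤ _ := by linarith
  have k2 : ∫ x in Set.Ioc (x₀ - 1) (x₀ + 1), |G x| ≤ 2 * ∫ x, |G x| * f x := by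
    rw [← integral_const_mul]
    calc ∫ x in Set.Ioc (x₀ - 1) (x₀ + 1), |G x| ≤
          ∫ x in Set.Ioc (x₀ - 1) (x₀ + 1), 2 * (|G x| * f x) := by
          refine setIntegral_mono_on hG.abs.integrableOn (i2.const_mul 2).integrableOn
            measurableSet_Ioc fun x hx => ?_
          have h1 : |x - x₀| ≤ 1 := abs_le.2 ⟨by linarith [hx.1], by linarith [hx.2]⟩
          have h2 : 1 / 2 ≤ f x := by
            rw [hf]
            exact sinc_near hσ hσ1 hn h1
          nlinarith [abs_nonneg (G x)]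
      _ ≤ ∫ x, 2 * (|G x| * f x) :=
          setIntegral_le_integral (i2.const_mul 2) (ae_of_all _ fun x =>
            mul_nonneg (by norm_num) (mul_nonneg (abs_nonneg _) (hf0 x)))
  linarith

/-- smallness on an interval -/
lemma int_small (hG : Integrable G) {w : ℝ → ℝ} (hw : Integrable w) (hw0 : ∀ x, 0 ≤ w x) {σ : ℝ}
    (hσ : 0 < σ) (hσ1 : σ ≤ 1) (h : Gap G σ) {m q R e : ℝ} (hq : 0 < q) (hR : 0 < R) (he : 0 ≤ e)
    {n : ℕ} (hn : 1 ≤ n) (hnq : 4 * n ≤ σ * q)
    (hl : ∀ᵐ x, |x - m| ≤ q + R + 1 → -(e * w x) ≤ G x) :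
    ∫ x in Set.Ioo (m - R) (m + R), |G x| ≤
      (R + 1) * (4 * (e * (∫ x, w x) + (1 / 4) ^ n * ∫ x, |G x|)) := by
  obtain ⟨N, hN⟩ : ∃ N : ℕ, N = ⌈R⌉₊ := ⟨_, rfl⟩
  have hN1 : R ≤ N := by rw [hN]; exact Nat.le_ceil _
  have hN2 : (N : ℝ) < R + 1 := by rw [hN]; exact Nat.ceil_lt_add_one hR.le
  obtain ⟨E, hE⟩ : ∃ E : ℝ, E = 4 * (e * (∫ x, w x) + (1 / 4) ^ n * ∫ x, |G x|) := ⟨_, rfl⟩
  rw [← hE]
  have hE0 : 0 ≤ E := by
    rw [hE]
    have h1 : 0 ≤ ∫ x, w x := integral_nonneg hw0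
    have h2 : 0 ≤ ∫ x, |G x| := integral_nonneg fun _ => abs_nonneg _
    positivity
  have hint : ∀ a b : ℝ, IntervalIntegrable (fun x => |G x|) volume a b :=
    fun a b => hG.abs.intervalIntegrable
  have h1 : ∀ k ∈ Finset.range N, ∫ x in (m - R + 2 * (k : ℝ))..(m - R + 2 * ((k + 1 : ℕ) : ℝ)),
      |G x| ≤ E := by
    intro k hk
    rw [Finset.mem_range] at hk
    have hk' : (k : ℝ) + 1 ≤ N := by exact_mod_cast hk
    rw [intervalIntegral.integral_of_le (by push_cast; linarith)]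
    have h2 := loc_small hG hw hw0 hσ hσ1 h (x₀ := m - R + 2 * k + 1) hq he hn hnq (by
      filter_upwards [hl] with x hx hx2
      apply hx
      have hk0 : (0 : ℝ) ≤ k := Nat.cast_nonneg k
      rw [abs_le] at hx2 ⊢
      constructor
      · linarith [hx2.1]
      · linarith [hx2.2])
    rw [← hE] at h2
    have e1 : m - R + 2 * (k : ℝ) + 1 - 1 = m - R + 2 * (k : ℝ) := by ring
    have e2 : m - R + 2 * (k : ℝ) + 1 + 1 = m - R + 2 * ((k + 1 : ℕ) : ℝ) := by push_cast; ring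
    rw [e1, e2] at h2
    exact h2
  have h2 := intervalIntegral.sum_integral_adjacent_intervals (f := fun x => |G x|)
    (μ := volume) (a := fun k : ℕ => m - R + 2 * (k : ℝ)) (n := N) fun k _ => hint _ _
  have h3 := Finset.sum_le_sum h1
  rw [Finset.sum_const, Finset.card_range, nsmul_eq_mul] at h3
  have h4 : ∫ x in (m - R)..(m - R + 2 * (N : ℝ)), |G x| ≤ N * E := by
    have e0 : m - R + 2 * ((0 : ℕ) : ℝ) = m - R := by simp
    have h5 := h2.symm.le.trans h3
    rw [e0] at h5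
    exact h5
  have h5 : ∫ x in Set.Ioo (m - R) (m + R), |G x| ≤
      ∫ x in (m - R)..(m - R + 2 * (N : ℝ)), |G x| := by
    rw [intervalIntegral.integral_of_le (by linarith)]
    refine setIntegral_mono_set hG.abs.integrableOn (ae_of_all _ fun x => abs_nonneg _) ?_
    refine ae_of_all _ fun x hx => ?_
    exact ⟨hx.1, by linarith [hx.2]⟩
  have h6 : (N : ℝ) * E ≤ (R + 1) * E := mul_le_mul_of_nonneg_right hN2.le hE0
  linarith

end Pool.Agent.NH10.BM
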